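import Pool.Agent.R268.Mac.Ultra

/-!
# The `c_0`-sum of countably many copies of a Banach space
-/

open Set Filter Topology
open scoped ENNReal

namespace Pool.Agent.R268.Mac

variable {F : Type} [NormedAddCommGroup F] [NormedSpace ℝ F]
  {Z : Type*} [NormedAddCommGroup Z] [NormedSpace ℝ Z]

/-- Bounded sequences in `F`. -/
abbrev LF (F : Type) [NormedAddCommGroup F] := lp (fun _ : ℕ => F) ∞

/-- Null sequences in `F`. -/
def C0 (F : Type) [NormedAddCommGroup F] [NormedSpace ℝ F] : Submodule ℝ (LF F) where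
  carrier := {x | Tendsto (fun k => x k) atTop (𝓝 0)}
  add_mem' := by
    intro x y hx hy
    have := hx.add hy
    rw [add_zero] at this
    exact this
  zero_mem' := by
    change Tendsto (fun k => (0 : LF F) k) atTop (𝓝 0)
    exact tendsto_const_nhds
  smul_mem' := by
    intro c x hx
    have := hx.const_smul c
    rw [smul_zero] at this
    exact this

theorem isClosed_C0 : IsClosed (C0 F : Set (LF F)) := by
  rw [← isSeqClosed_iff_isClosed]
  intro x a hx ha
  change Tendsto (fun k => a k) atTop (𝓝 0)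
  rw [Metric.tendsto_atTop]
  intro ε hε
  obtain ⟨n, hn⟩ := ((Metric.tendsto_atTop.1 ha) (ε / 2) (half_pos hε))
  have h1 := hn n le_rfl
  have h2 : Tendsto (fun k => x n k) atTop (𝓝 0) := hx n
  obtain ⟨K, hK⟩ := (Metric.tendsto_atTop.1 h2) (ε / 2) (half_pos hε)
  refine ⟨K, fun k hk => ?_⟩
  have h3 := hK k hk
  rw [dist_zero_right] at h3 ⊢
  have h4 : ‖(x n - a) k‖ ≤ ‖x n - a‖ := lp.norm_apply_le_norm ENNReal.top_ne_zero _ k
  rw [dist_eq_norm] at h1
  have h5 : a k = x n k - (x n - a) k := by
    change a k = x n k - (x n k - a k)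
    abel
  rw [h5]
  calc ‖x n k - (x n - a) k‖ ≤ ‖x n k‖ + ‖(x n - a) k‖ := norm_sub_le _ _
    _ < ε / 2 + ε / 2 := add_lt_add_of_lt_of_le h3 (h4.trans h1.le)
    _ = ε := add_halves ε

instance [CompleteSpace F] : CompleteSpace (C0 F) := isClosed_C0.completeSpace_coe

/-- Coordinates. -/
def C0.co (x : C0 F) (k : ℕ) : F := (x : LF F) k

theorem C0.ext' {x y : C0 F} (h : ∀ k, C0.co x k = C0.co y k) : x = y := by
  apply Subtype.ext
  ext k
  exact h k

theorem C0.co_add (x y : C0 F) (k : ℕ) : C0.co (x + y) k = C0.co x k + C0.co y k := rfl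

theorem C0.co_sub (x y : C0 F) (k : ℕ) : C0.co (x - y) k = C0.co x k - C0.co y k := rfl

theorem C0.co_smul (c : ℝ) (x : C0 F) (k : ℕ) : C0.co (c • x) k = c • C0.co x k := rfl

theorem C0.co_zero (k : ℕ) : C0.co (0 : C0 F) k = 0 := rfl

theorem C0.co_sum {ι : Type*} (s : Finset ι) (x : ι → C0 F) (k : ℕ) :
    C0.co (∑ i ∈ s, x i) k = ∑ i ∈ s, C0.co (x i) k := by
  classical
  induction s using Finset.induction_on with
  | empty => rfl
  | insert a s ha ih => rw [Finset.sum_insert ha, Finset.sum_insert ha, C0.co_add, ih]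

theorem C0.norm_co_le (x : C0 F) (k : ℕ) : ‖C0.co x k‖ ≤ ‖x‖ :=
  lp.norm_apply_le_norm ENNReal.top_ne_zero (x : LF F) k

theorem C0.norm_le {x : C0 F} {C : ℝ} (hC : 0 ≤ C) (h : ∀ k, ‖C0.co x k‖ ≤ C) : ‖x‖ ≤ C :=
  lp.norm_le_of_forall_le (f := (x : LF F)) hC h

theorem C0.tendsto_co (x : C0 F) : Tendsto (fun k => C0.co x k) atTop (𝓝 0) := x.2

/-- Coordinate projections as continuous linear maps. -/
noncomputable def C0.ev (k : ℕ) : C0 F →L[ℝ] F :=
  LinearMap.mkContinuous
    { toFun := fun x => C0.co x k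
      map_add' := fun _ _ => rfl
      map_smul' := fun _ _ => rfl } 1 (fun x => by rw [one_mul]; exact C0.norm_co_le x k)

theorem C0.ev_apply (k : ℕ) (x : C0 F) : C0.ev k x = C0.co x k := rfl

/-- Elements with one nonzero coordinate. -/
noncomputable def C0.single (k : ℕ) : F →L[ℝ] C0 F :=
  LinearMap.mkContinuous
    { toFun := fun y => ⟨⟨fun j => if j = k then y else 0, memℓp_infty ⟨‖y‖, by
          rintro _ ⟨j, rfl⟩
          dsimp only
          split_ifs
          · exact le_rfl
          · rw [norm_zero]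
            exact norm_nonneg _⟩⟩, by
          change Tendsto (fun j => if j = k then y else 0) atTop (𝓝 0)
          apply tendsto_const_nhds.congr'
          filter_upwards [eventually_gt_atTop k] with j hj
          rw [if_neg hj.ne']⟩
      map_add' := by
        intro y z
        apply C0.ext'
        intro j
        change (if j = k then y + z else 0) = (if j = k then y else 0) + (if j = k then z else 0)
        split_ifs
        · rfl
        · rw [add_zero]
      map_smul' := by
        intro c y
        apply C0.ext'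
        intro j
        change (if j = k then c • y else 0) = c • (if j = k then y else 0)
        split_ifs
        · rfl
        · rw [smul_zero] } 1 (by
      intro y
      rw [one_mul]
      apply C0.norm_le (norm_nonneg _)
      intro j
      change ‖(if j = k then y else 0)‖ ≤ ‖y‖
      split_ifs
      · exact le_rfl
      · rw [norm_zero]
        exact norm_nonneg _)

theorem C0.co_single (k j : ℕ) (y : F) : C0.co (C0.single k y) j = if j = k then y else 0 := rfl

theorem C0.norm_single_le (k : ℕ) (y : F) : ‖C0.single k y‖ ≤ ‖y‖ := by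
  apply C0.norm_le (norm_nonneg _)
  intro j
  rw [C0.co_single]
  split_ifs
  · exact le_rfl
  · rw [norm_zero]
    exact norm_nonneg _

/-- Truncation. -/
noncomputable def C0.trunc (N : ℕ) (x : C0 F) : C0 F :=
  ∑ k ∈ Finset.range N, C0.single k (C0.co x k)

theorem C0.co_trunc (N : ℕ) (x : C0 F) (j : ℕ) :
    C0.co (C0.trunc N x) j = if j < N then C0.co x j else 0 := by
  unfold C0.trunc
  rw [C0.co_sum]
  simp only [C0.co_single]
  by_cases h : j < N
  · rw [if_pos h, Finset.sum_eq_single j]
    · rw [if_pos rfl]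
    · intro b _ hb
      rw [if_neg hb.symm]
    · intro hj
      exact absurd (Finset.mem_range.2 h) hj
  · rw [if_neg h]
    apply Finset.sum_eq_zero
    intro b hb
    rw [if_neg]
    rintro rfl
    exact h (Finset.mem_range.1 hb)

theorem C0.tendsto_trunc (x : C0 F) : Tendsto (fun N => C0.trunc N x) atTop (𝓝 x) := by
  rw [Metric.tendsto_atTop]
  intro ε hε
  obtain ⟨K, hK⟩ := (Metric.tendsto_atTop.1 (C0.tendsto_co x)) (ε / 2) (half_pos hε)
  refine ⟨K, fun N hN => ?_⟩
  rw [dist_eq_norm]
  refine lt_of_le_of_lt (C0.norm_le (half_pos hε).le ?_) (half_lt_self hε)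
  intro j
  rw [C0.co_sub, C0.co_trunc]
  split_ifs with h
  · rw [sub_self, norm_zero]
    exact (half_pos hε).le
  · rw [zero_sub, norm_neg]
    have := hK j (hN.trans (not_lt.1 h))
    rw [dist_zero_right] at this
    exact this.le

/-- Completely continuous operators are small on tails. -/
theorem C0.tail_small {T : C0 F →L[ℝ] Z} (hT : ComplCont T) {ε : ℝ} (hε : 0 < ε) :
    ∃ N, ∀ x : C0 F, ‖x‖ ≤ 1 → ‖T (x - C0.trunc N x)‖ ≤ ε := by
  by_contra hcon
  push Not at hcon
  have hstep : ∀ N : ℕ, ∃ (b : C0 F) (M : ℕ), N < M ∧ ‖b‖ ≤ 1 ∧ ε < ‖T b‖ ∧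
      ∀ j, (j < N ∨ M ≤ j) → C0.co b j = 0 := by
    intro N
    obtain ⟨x, hx, hTx⟩ := hcon N
    have h1 : Tendsto (fun M => ‖T (C0.trunc M x - C0.trunc N x)‖) atTop
        (𝓝 ‖T (x - C0.trunc N x)‖) :=
      ((T.continuous.tendsto _).comp ((C0.tendsto_trunc x).sub_const _)).norm
    obtain ⟨M, hM1, hM2⟩ := ((h1.eventually (lt_mem_nhds hTx)).and (eventually_gt_atTop N)).exists
    refine ⟨C0.trunc M x - C0.trunc N x, M, hM2, ?_, hM1, ?_⟩
    · apply C0.norm_le zero_le_one
      intro j
      rw [C0.co_sub, C0.co_trunc, C0.co_trunc]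
      split_ifs
      · rw [sub_self, norm_zero]
        exact zero_le_one
      · rw [sub_zero]
        exact (C0.norm_co_le x j).trans hx
      · omega
      · rw [sub_self, norm_zero]
        exact zero_le_one
    · intro j hj
      rw [C0.co_sub, C0.co_trunc, C0.co_trunc]
      rcases hj with hj | hj
      · rw [if_pos hj, if_pos (hj.trans hM2), sub_self]
      · rw [if_neg (not_lt.2 hj), if_neg (not_lt.2 (hM2.le.trans hj)), sub_self]
  choose b M hNM hb1 hb2 hb3 using hstep
  let n : ℕ → ℕ := fun j => M^[j] 0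
  have hn : ∀ j, n (j + 1) = M (n j) := fun j => Function.iterate_succ_apply' M j 0
  have hmono : StrictMono n := strictMono_nat_of_lt_succ (fun j => by rw [hn]; exact hNM _)
  have hdisj : ∀ i j k, i < j → C0.co (b (n i)) k ≠ 0 → C0.co (b (n j)) k = 0 := by
    intro i j k hij hk
    apply hb3
    left
    by_contra hlt
    apply hk
    apply hb3
    right
    rw [← hn]
    exact (hmono.monotone (Nat.succ_le_of_lt hij)).trans (not_lt.1 hlt)
  have hW : WConv (fun i => b (n i)) 0 := by
    apply wconv_zero_of_signs (C := 1)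
    intro m e he
    apply C0.norm_le zero_le_one
    intro k
    rw [C0.co_sum]
    simp only [C0.co_smul]
    by_cases h : ∃ i ∈ Finset.range m, C0.co (b (n i)) k ≠ 0
    · obtain ⟨i, hi, hik⟩ := h
      rw [Finset.sum_eq_single i]
      · rw [norm_smul, Real.norm_eq_abs, he i, one_mul]
        exact (C0.norm_co_le (b (n i)) k).trans (hb1 _)
      · intro j _ hji
        have : C0.co (b (n j)) k = 0 := by
          rcases lt_or_gt_of_ne hji with h | h
          · by_contra hne
            exact hik (hdisj j i k h hne)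
          · exact hdisj i j k h hik
        rw [this, smul_zero]
      · intro hi'
        exact absurd hi hi'
    · push Not at h
      rw [Finset.sum_eq_zero, norm_zero]
      · exact zero_le_one
      · intro i hi
        rw [h i hi, smul_zero]
  have h3 := hT _ 0 hW
  rw [map_zero] at h3
  have h4 := (tendsto_zero_iff_norm_tendsto_zero.1 h3).eventually (gt_mem_nhds hε)
  obtain ⟨i, hi⟩ := h4.exists
  exact absurd hi (not_lt.2 (hb2 _).le)

end Pool.Agent.R268.Mac
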