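import Mathlib

/-!
# Definitions for the Mackey noncompactness measures
-/

open Set Filter Topology
open scoped ENNReal

namespace Pool.Agent.R268.Mac

variable {X Z : Type*} [NormedAddCommGroup X] [NormedSpace ℝ X]
  [NormedAddCommGroup Z] [NormedSpace ℝ Z]

/-- A weakly compact subset of `X`. -/
def WCompact (L : Set X) : Prop := IsCompact (toWeakSpace ℝ X '' L)

/-- Weak convergence of sequences. -/
def WConv (x : ℕ → X) (a : X) : Prop :=
  ∀ f : X →L[ℝ] ℝ, Tendsto (fun n => f (x n)) atTop (𝓝 (f a))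

/-- Completely continuous operators: weakly convergent sequences are mapped to norm convergent
ones. -/
def ComplCont (T : X →L[ℝ] Z) : Prop :=
  ∀ (x : ℕ → X) (a : X), WConv x a → Tendsto (fun n => T (x n)) atTop (𝓝 (T a))

/-- Weakly compact operators: the image of the closed unit ball is relatively weakly compact. -/
def WCompactOp (T : X →L[ℝ] Z) : Prop :=
  IsCompact (closure (toWeakSpace ℝ Z '' (T '' Metric.closedBall 0 1)))

/-- The reciprocal Dunford-Pettis property. -/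
def RDPP (X : Type) [NormedAddCommGroup X] [NormedSpace ℝ X] : Prop :=
  ∀ (Z : Type) [NormedAddCommGroup Z] [NormedSpace ℝ Z] [CompleteSpace Z] (T : X →L[ℝ] Z),
    ComplCont T → WCompactOp T

/-- Compactness in the Mackey topology of the dual, i.e. in the topology of uniform convergence
on weakly compact sets. -/
def MackeyCompact (H : Set (X →L[ℝ] ℝ)) : Prop :=
  IsCompact (UniformConvergenceCLM.ofFun (RingHom.id ℝ) ℝ {L : Set X | WCompact L} '' H)

/-- The sup-norm distance of the restrictions of two functionals to `L`. -/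
noncomputable def supDist (L : Set X) (f g : X →L[ℝ] ℝ) : ℝ≥0∞ :=
  ⨆ x ∈ L, ENNReal.ofReal |f x - g x|

/-- `χ₀(A|_L)`: the infimum over finite `F ⊆ A` of `sup_{f ∈ A} inf_{g ∈ F} ‖f|_L - g|_L‖_∞`. -/
noncomputable def chiZero (L : Set X) (A : Set (X →L[ℝ] ℝ)) : ℝ≥0∞ :=
  ⨅ (F : Set (X →L[ℝ] ℝ)) (_ : F ⊆ A) (_ : F.Finite), ⨆ f ∈ A, ⨅ g ∈ F, supDist L f g

/-- `χ_m(A)`: the supremum of `χ₀(A|_L)` over the weakly compact subsets of the unit ball. -/
noncomputable def chiM (A : Set (X →L[ℝ] ℝ)) : ℝ≥0∞ :=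
  ⨆ (L : Set X) (_ : L ⊆ Metric.closedBall 0 1) (_ : WCompact L), chiZero L A

/-- `ω_m(A)`: the infimum over Mackey compact `H` of `sup_{f ∈ A} dist(f, H)`. -/
noncomputable def omegaM (A : Set (X →L[ℝ] ℝ)) : ℝ≥0∞ :=
  ⨅ (H : Set (X →L[ℝ] ℝ)) (_ : MackeyCompact H), ⨆ f ∈ A, ⨅ h ∈ H, ENNReal.ofReal ‖f - h‖

end Pool.Agent.R268.Mac
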