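import Pool.Agent.R268.Mac.Tails

/-!
# The sets of functionals: small `χ_m`, large `ω_m`
-/

open Set Filter Topology
open scoped ENNReal

namespace Pool.Agent.R268.Mac

variable {X : Type} [NormedAddCommGroup X] [NormedSpace ℝ X] (D : Data X)

/-- The summing type functionals on the bounded functions on the sign sequences. -/
noncomputable def fN (n : ℕ) : Linf Sq →L[ℝ] ℝ :=
  (1 / 2 : ℝ) • (evL (fun _ => true) + evL (flip (fun _ => false) n))

theorem fN_apply (n : ℕ) (y : Linf Sq) :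
    fN n y = 1 / 2 * (y (fun _ => true) + y (flip (fun _ => false) n)) := rfl

theorem fN_J (n : ℕ) (t : l1) : fN n (J t) = RR t n := by
  rw [fN_apply]
  have h1 := J_flip t (fun _ => false) n
  have h2 : J t (fun _ => false) = - J t (fun _ => true) := by
    rw [J_apply, J_apply, ← tsum_neg]
    apply tsum_congr
    intro i
    rw [sg_true, sg_false]
    ring
  have h3 : SS (fun _ => false) t n = - RR t n := by
    unfold SS RR
    rw [← tsum_neg]
    apply tsum_congr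
    intro i
    change sg false * t (i + n) = - t (i + n)
    rw [sg_false]
    ring
  linarith

theorem abs_fN_le (n : ℕ) (y : Linf Sq) : |fN n y| ≤ ‖y‖ := by
  rw [fN_apply, abs_mul, abs_of_nonneg (by norm_num : (0 : ℝ) ≤ 1 / 2)]
  have h1 := abs_add_le (y (fun _ => true)) (y (flip (fun _ => false) n))
  have h2 := abs_le_linf_norm y (fun _ => true)
  have h3 := abs_le_linf_norm y (flip (fun _ => false) n)
  linarith

/-- The functionals. -/
noncomputable def gk (k n : ℕ) : X →L[ℝ] ℝ := (fN n).comp (D.y k)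

theorem abs_RR_le {v : ℕ → ℝ} (hv : Summable (fun i => |v i|)) (n : ℕ) : |RR v n| ≤ tl v n := by
  have h := abs_SS_le (fun _ => true) hv n
  have h1 : SS (fun _ => true) v n = RR v n := by
    unfold SS
    simp only [sg_true, one_mul]
  rwa [h1] at h

theorem gk_sub_le (k : ℕ) {L : Set X} (m : X → EE)
    (hm1 : ∀ x ∈ L, D.Q (m x) = x) (hm2 : ∀ x ∈ L, ‖m x‖ ≤ 2) {N : ℕ}
    (hN : ∀ x ∈ L, tl (C0.co (m x) k).1 N ≤ 5 / ((k : ℝ) + 1)) {n n' : ℕ} (hn : N ≤ n)
    (hn' : N ≤ n') {x : X} (hx : x ∈ L) :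
    |gk D k n x - gk D k n' x| ≤ 14 / ((k : ℝ) + 1) := by
  have hK : 0 < (k : ℝ) + 1 := by positivity
  have hK' : 0 < ((k : ℝ) + 1)⁻¹ := inv_pos.2 hK
  have h1 : ∀ j, gk D k j x = RR (C0.co (m x) k).1 j +
      ((k : ℝ) + 1)⁻¹ * fN j (C0.co (m x) k).2 := by
    intro j
    have h2 : D.y k x = J (C0.co (m x) k).1 + ((k : ℝ) + 1)⁻¹ • (C0.co (m x) k).2 := by
      rw [← pk_apply, ← D.y_Q, hm1 x hx]
    change fN j (D.y k x) = _
    rw [h2, map_add, fN_J, map_smul, smul_eq_mul]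
  have hs : Summable (fun i => |(C0.co (m x) k).1 i|) := l1_summable _
  have h2 : ∀ j, N ≤ j → |RR (C0.co (m x) k).1 j| ≤ 5 / ((k : ℝ) + 1) := fun j hj =>
    ((abs_RR_le hs j).trans (tl_anti hs hj)).trans (hN x hx)
  have h3 : ∀ j, |fN j (C0.co (m x) k).2| ≤ 2 := by
    intro j
    calc |fN j (C0.co (m x) k).2| ≤ ‖(C0.co (m x) k).2‖ := abs_fN_le _ _
      _ ≤ ‖C0.co (m x) k‖ := norm_snd_le _
      _ ≤ ‖m x‖ := C0.norm_co_le _ _
      _ ≤ 2 := hm2 x hx
  rw [h1, h1]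
  have h4 := abs_le.1 (h2 n hn)
  have h5 := abs_le.1 (h2 n' hn')
  have h6 := abs_le.1 (h3 n)
  have h7 := abs_le.1 (h3 n')
  have h8 : |((k : ℝ) + 1)⁻¹ * (fN n (C0.co (m x) k).2 - fN n' (C0.co (m x) k).2)|
      ≤ ((k : ℝ) + 1)⁻¹ * 4 := by
    rw [abs_mul, abs_of_pos hK']
    apply mul_le_mul_of_nonneg_left _ hK'.le
    rw [abs_le]
    constructor <;> linarith [h6.1, h6.2, h7.1, h7.2]
  have h9 := abs_le.1 h8
  have h10 : (14 : ℝ) / ((k : ℝ) + 1) = 5 / ((k : ℝ) + 1) + 5 / ((k : ℝ) + 1)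
      + ((k : ℝ) + 1)⁻¹ * 4 := by
    field_simp
    norm_num
  rw [abs_le, h10]
  constructor <;> linarith [h4.1, h4.2, h5.1, h5.2, h9.1, h9.2]

/-- `χ_m` of the `k`-th set is small. -/
theorem chiM_le (k : ℕ) : chiM (Set.range (gk D k)) ≤ ENNReal.ofReal (14 / ((k : ℝ) + 1)) := by
  unfold chiM
  apply iSup_le
  intro L
  apply iSup_le
  intro hL
  apply iSup_le
  intro hLc
  have hlift : ∀ x : X, ∃ m : EE, x ∈ L → D.Q m = x ∧ ‖m‖ ≤ 2 := by
    intro x
    by_cases hx : x ∈ L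
    · have := hL hx
      rw [mem_closedBall_zero_iff] at this
      obtain ⟨m, hm⟩ := D.lift x this
      exact ⟨m, fun _ => hm⟩
    · exact ⟨0, fun h => absurd h hx⟩
  choose m hm using hlift
  obtain ⟨N, hN⟩ := tails D k hLc m (fun x hx => (hm x hx).1) (fun x hx => (hm x hx).2)
  unfold chiZero
  refine iInf_le_of_le (gk D k '' Set.Iic N) (iInf_le_of_le ?_ (iInf_le_of_le ?_ ?_))
  · rintro _ ⟨n, -, rfl⟩
    exact ⟨n, rfl⟩
  · exact (Set.finite_Iic N).image _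
  · apply iSup_le
    intro f
    apply iSup_le
    rintro ⟨n, rfl⟩
    rcases le_total n N with h | h
    · refine iInf_le_of_le (gk D k n) (iInf_le_of_le ⟨n, h, rfl⟩ ?_)
      unfold supDist
      apply iSup_le
      intro x
      apply iSup_le
      intro _
      rw [sub_self, abs_zero]
      exact ENNReal.ofReal_le_ofReal (by positivity)
    · refine iInf_le_of_le (gk D k N) (iInf_le_of_le ⟨N, Set.mem_Iic.2 le_rfl, rfl⟩ ?_)
      unfold supDist
      apply iSup_le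
      intro x
      apply iSup_le
      intro hx
      exact ENNReal.ofReal_le_ofReal (gk_sub_le D k m (fun x hx => (hm x hx).1)
        (fun x hx => (hm x hx).2) hN h le_rfl hx)

/-- Unit vectors of `ℓ_1`. -/
noncomputable def em (m : ℕ) : l1 := lp.single 1 m (1 : ℝ)

theorem em_apply (m i : ℕ) : em m i = if i = m then 1 else 0 := by
  unfold em
  by_cases h : i = m
  · rw [if_pos h, h]
    exact lp.single_apply_self (E := fun _ : ℕ => ℝ) 1 m (1 : ℝ)
  · rw [if_neg h]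
    exact lp.single_apply_ne (E := fun _ : ℕ => ℝ) 1 m (1 : ℝ) h

theorem norm_em (m : ℕ) : ‖em m‖ = 1 := by
  rw [l1_norm, tsum_eq_single m]
  · rw [em_apply, if_pos rfl, abs_one]
  · intro i hi
    rw [em_apply, if_neg hi, abs_zero]

theorem RR_em (m n : ℕ) : RR (em m) n = if n ≤ m then 1 else 0 := by
  unfold RR
  by_cases h : n ≤ m
  · rw [if_pos h, tsum_eq_single (m - n)]
    · rw [em_apply, if_pos (by omega)]
    · intro i hi
      rw [em_apply, if_neg (by omega)]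
  · rw [if_neg h]
    have : ∀ i, em m (i + n) = 0 := by
      intro i
      rw [em_apply, if_neg (by omega)]
    simp [this]

/-- The test vectors. -/
noncomputable def Rm (k m : ℕ) : X := D.Q (C0.single k ((em m, (0 : Linf Sq))))

theorem norm_Rm_le (k m : ℕ) : ‖Rm D k m‖ ≤ 1 := by
  unfold Rm
  refine (D.norm_Q _).trans ((C0.norm_single_le _ _).trans ?_)
  rw [Prod.norm_mk, norm_em, norm_zero]
  simp

theorem gk_Rm (k n m : ℕ) : gk D k n (Rm D k m) = if n ≤ m then 1 else 0 := by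
  change fN n (D.y k (D.Q (C0.single k ((em m, (0 : Linf Sq)))))) = _
  rw [D.y_Q, C0.co_single, if_pos rfl, pk_apply, smul_zero, add_zero, fN_J, RR_em]

/-- Uniform approximation on weakly compact sets inside a Mackey compact set. -/
theorem mackey_net {H : Set (X →L[ℝ] ℝ)} (hH : MackeyCompact H) {L : Set X} (hL : WCompact L)
    {ε : ℝ} (hε : 0 < ε) :
    ∃ F : Set (X →L[ℝ] ℝ), F.Finite ∧ ∀ h ∈ H, ∃ h' ∈ F, ∀ x ∈ L, |h x - h' x| < ε := by
  let 𝔖 : Set (Set X) := {L : Set X | WCompact L}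
  let o := UniformConvergenceCLM.ofFun (RingHom.id ℝ) ℝ 𝔖
  let U : Set (UniformConvergenceCLM (RingHom.id ℝ) (E := X) ℝ 𝔖) :=
    {f | MapsTo f L (Metric.ball 0 ε)}
  have hU : U ∈ 𝓝 0 :=
    UniformConvergenceCLM.eventually_nhds_zero_mapsTo (RingHom.id ℝ) (𝔖 := 𝔖) hL
      (Metric.ball_mem_nhds 0 hε)
  have hV : ∀ h' ∈ o '' H, (fun f => f - h') ⁻¹' U ∈ 𝓝 h' := by
    intro h' _
    have h1 : Tendsto (fun f => f - h') (𝓝 h') (𝓝 (h' - h')) :=
      (continuous_id.sub continuous_const).tendsto h'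
    rw [sub_self] at h1
    exact h1 hU
  obtain ⟨t, ht1, ht2⟩ := IsCompact.elim_nhds_subcover hH (fun h' => (fun f => f - h') ⁻¹' U) hV
  refine ⟨o.symm '' (t : Set _), t.finite_toSet.image _, ?_⟩
  intro h hh
  have h1 := ht2 ⟨h, hh, rfl⟩
  simp only [Set.mem_iUnion] at h1
  obtain ⟨h', hh', hmem⟩ := h1
  refine ⟨o.symm h', ⟨h', hh', rfl⟩, ?_⟩
  intro x hx
  have h2 := hmem hx
  rw [Metric.mem_ball, dist_zero_right, Real.norm_eq_abs] at h2
  exact h2

theorem wcompact_singleton (x : X) : WCompact ({x} : Set X) := by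
  unfold WCompact
  rw [Set.image_singleton]
  exact isCompact_singleton

theorem wcompact_insert_range {x : ℕ → X} {a : X} (h : WConv x a) :
    WCompact (insert a (Set.range x)) := by
  unfold WCompact
  rw [Set.image_insert_eq, ← Set.range_comp]
  exact (tendsto_weak_iff.2 h).isCompact_insert_range

/-- The sup norm space over `H`. -/
abbrev ZH (H : Set (X →L[ℝ] ℝ)) := lp (fun _ : H => ℝ) ∞

theorem mackey_bounded [CompleteSpace X] {H : Set (X →L[ℝ] ℝ)} (hH : MackeyCompact H) :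
    ∃ C, ∀ h : H, ‖(h : X →L[ℝ] ℝ)‖ ≤ C := by
  apply banach_steinhaus
  intro x
  obtain ⟨F, hF, hFH⟩ := mackey_net hH (wcompact_singleton x) one_pos
  obtain ⟨C, hC⟩ := (hF.image (fun f => ‖f x‖)).bddAbove
  refine ⟨1 + C, ?_⟩
  rintro ⟨h, hh⟩
  obtain ⟨h', hh', hx⟩ := hFH h hh
  have h1 := hx x rfl
  have h2 : ‖h' x‖ ≤ C := hC ⟨h', hh', rfl⟩
  calc ‖h x‖ = ‖(h x - h' x) + h' x‖ := by rw [sub_add_cancel]
    _ ≤ ‖h x - h' x‖ + ‖h' x‖ := norm_add_le _ _
    _ ≤ 1 + C := add_le_add h1.le h2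

/-- The operator attached to a bounded family of functionals. -/
noncomputable def TH (H : Set (X →L[ℝ] ℝ)) (C : ℝ) (hC0 : 0 ≤ C)
    (hC : ∀ h : H, ‖(h : X →L[ℝ] ℝ)‖ ≤ C) : X →L[ℝ] ZH H :=
  LinearMap.mkContinuous
    { toFun := fun x => ⟨fun h => (h : X →L[ℝ] ℝ) x, memℓp_infty ⟨C * ‖x‖, by
        rintro _ ⟨h, rfl⟩
        exact ((h : X →L[ℝ] ℝ).le_opNorm x).trans
          (mul_le_mul_of_nonneg_right (hC h) (norm_nonneg _))⟩⟩
      map_add' := by
        intro x y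
        ext h
        exact map_add _ _ _
      map_smul' := by
        intro c x
        ext h
        exact map_smul _ _ _ } C (by
      intro x
      apply lp.norm_le_of_forall_le (by positivity)
      intro h
      exact ((h : X →L[ℝ] ℝ).le_opNorm x).trans
          (mul_le_mul_of_nonneg_right (hC h) (norm_nonneg _)))

theorem TH_apply (H : Set (X →L[ℝ] ℝ)) (C : ℝ) (hC0 : 0 ≤ C)
    (hC : ∀ h : H, ‖(h : X →L[ℝ] ℝ)‖ ≤ C) (x : X) (h : H) :
    (TH H C hC0 hC x : ZH H) h = (h : X →L[ℝ] ℝ) x := rfl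

theorem complCont_TH {H : Set (X →L[ℝ] ℝ)} (hH : MackeyCompact H) (C : ℝ) (hC0 : 0 ≤ C)
    (hC : ∀ h : H, ‖(h : X →L[ℝ] ℝ)‖ ≤ C) : ComplCont (TH H C hC0 hC) := by
  intro x a hx
  rw [Metric.tendsto_atTop]
  intro ε hε
  obtain ⟨F, hF, hFH⟩ := mackey_net hH (wcompact_insert_range hx) (ε := ε / 4) (by positivity)
  have h1 : ∀ᶠ n in atTop, ∀ f ∈ F, |f (x n) - f a| < ε / 4 := by
    rw [hF.eventually_all]
    intro f _
    have h2 := (Metric.tendsto_nhds.1 (hx f)) (ε / 4) (by positivity)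
    simpa only [Real.dist_eq] using h2
  obtain ⟨N, hN⟩ := eventually_atTop.1 h1
  refine ⟨N, fun n hn => ?_⟩
  rw [dist_eq_norm, ← map_sub]
  refine lt_of_le_of_lt (lp.norm_le_of_forall_le (C := 3 * (ε / 4)) (by positivity) ?_)
    (by linarith)
  rintro ⟨h, hh⟩
  rw [TH_apply]
  obtain ⟨f, hfF, hf⟩ := hFH h hh
  have h2 := hf (x n) (Or.inr ⟨n, rfl⟩)
  have h3 := hf a (Or.inl rfl)
  have h4 := hN n hn f hfF
  change |h (x n - a)| ≤ _
  rw [map_sub]
  have h5 := abs_lt.1 h2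
  have h6 := abs_lt.1 h3
  have h7 := abs_lt.1 h4
  rw [abs_le]
  constructor <;> linarith [h5.1, h5.2, h6.1, h6.2, h7.1, h7.2]

/-- `ω_m` of the `k`-th set is at least `1/2`. -/
theorem le_omegaM [CompleteSpace X] (hR : RDPP X) (k : ℕ) :
    ENNReal.ofReal (1 / 2) ≤ omegaM (Set.range (gk D k)) := by
  by_contra hcon
  rw [not_le] at hcon
  unfold omegaM at hcon
  rw [iInf_lt_iff] at hcon
  obtain ⟨H, hcon⟩ := hcon
  rw [iInf_lt_iff] at hcon
  obtain ⟨hH, hcon⟩ := hcon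
  obtain ⟨r, hr1, hr2⟩ := ENNReal.lt_iff_exists_real_btwn.1 hcon |>.imp (fun r hr => hr.2)
  have hr : r < 1 / 2 := by
    by_contra hle
    exact absurd hr2 (not_lt.2 (ENNReal.ofReal_le_ofReal (not_lt.1 hle)))
  have hh : ∀ n, ∃ h ∈ H, ‖gk D k n - h‖ < r := by
    intro n
    have h1 : ⨅ h ∈ H, ENNReal.ofReal ‖gk D k n - h‖ < ENNReal.ofReal r := by
      refine lt_of_le_of_lt ?_ hr1
      exact le_iSup₂_of_le (gk D k n) ⟨n, rfl⟩ le_rfl
    rw [iInf_lt_iff] at h1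
    obtain ⟨h, h1⟩ := h1
    rw [iInf_lt_iff] at h1
    obtain ⟨hhH, h1⟩ := h1
    exact ⟨h, hhH, (ENNReal.ofReal_lt_ofReal_iff_of_nonneg (norm_nonneg _)).1 h1⟩
  choose h hhH hhr using hh
  obtain ⟨C, hC⟩ := mackey_bounded hH
  have hC0 : 0 ≤ C := (norm_nonneg _).trans (hC ⟨h 0, hhH 0⟩)
  let T := TH H C hC0 hC
  have hT : ComplCont T := complCont_TH hH C hC0 hC
  have hTw : WCompactOp T := hR (ZH H) T hT
  have hclose : ∀ n m, |gk D k n (Rm D k m) - h n (Rm D k m)| ≤ r := by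
    intro n m
    have h1 : gk D k n (Rm D k m) - h n (Rm D k m) = (gk D k n - h n) (Rm D k m) := rfl
    rw [h1]
    calc |(gk D k n - h n) (Rm D k m)| ≤ ‖gk D k n - h n‖ * ‖Rm D k m‖ :=
          (gk D k n - h n).le_opNorm _
      _ ≤ r * 1 := mul_le_mul (hhr n).le (norm_Rm_le D k m) (norm_nonneg _)
          ((norm_nonneg _).trans (hhr n).le)
      _ = r := mul_one r
  -- the cluster point
  have hcl : ∃ τ : ZH H, Tendsto (fun m => toWeakSpace ℝ (ZH H) (T (Rm D k m)))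
      (hyperfilter ℕ : Filter ℕ) (𝓝 (toWeakSpace ℝ (ZH H) τ)) := by
    have h1 : ((hyperfilter ℕ).map (fun m => toWeakSpace ℝ (ZH H) (T (Rm D k m))) : Filter _)
        ≤ 𝓟 (closure (toWeakSpace ℝ (ZH H) '' (T '' Metric.closedBall 0 1))) := by
      rw [le_principal_iff]
      change (fun m => toWeakSpace ℝ (ZH H) (T (Rm D k m))) ⁻¹'
        (closure (toWeakSpace ℝ (ZH H) '' (T '' Metric.closedBall 0 1))) ∈ hyperfilter ℕ
      have : (fun m => toWeakSpace ℝ (ZH H) (T (Rm D k m))) ⁻¹'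
        (closure (toWeakSpace ℝ (ZH H) '' (T '' Metric.closedBall 0 1))) = Set.univ := by
        rw [Set.eq_univ_iff_forall]
        intro m
        apply subset_closure
        refine ⟨T (Rm D k m), ⟨Rm D k m, ?_, rfl⟩, rfl⟩
        rw [mem_closedBall_zero_iff]
        exact norm_Rm_le D k m
      rw [this]
      exact univ_mem
    obtain ⟨z, -, hle⟩ := IsCompact.ultrafilter_le_nhds hTw _ h1
    refine ⟨(toWeakSpace ℝ (ZH H)).symm z, ?_⟩
    rw [LinearEquiv.apply_symm_apply]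
    exact hle
  obtain ⟨τ, hτ⟩ := hcl
  -- evaluation functionals on `ZH H`
  let evZ : H → (ZH H →L[ℝ] ℝ) := fun h' => LinearMap.mkContinuous
    { toFun := fun w => w h'
      map_add' := fun _ _ => rfl
      map_smul' := fun _ _ => rfl } 1 (fun w => by
        rw [one_mul]
        exact lp.norm_apply_le_norm ENNReal.top_ne_zero w h')
  have hevZ : ∀ (h' : H) (w : ZH H), evZ h' w = w h' := fun _ _ => rfl
  have hτn : ∀ n, 1 - r ≤ τ ⟨h n, hhH n⟩ := by
    intro n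
    have h1 := tendsto_weak_iff.1 hτ (evZ ⟨h n, hhH n⟩)
    rw [← hevZ]
    apply ge_of_tendsto h1
    have h3 : ∀ᶠ m in (hyperfilter ℕ : Filter ℕ), n ≤ m := by
      have : (hyperfilter ℕ : Filter ℕ) ≤ atTop := by
        rw [← Nat.cofinite_eq_atTop]
        exact hyperfilter_le_cofinite
      exact this (eventually_ge_atTop n)
    filter_upwards [h3] with m hm
    rw [hevZ, TH_apply]
    have h4 := abs_le.1 (hclose n m)
    rw [gk_Rm, if_pos hm] at h4
    have h5 : 1 - r ≤ h n (Rm D k m) := by linarith [h4.2]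
    exact h5
  -- Mazur
  let K : Set (ZH H) := {w | ∃ n0, ∀ n, n0 ≤ n → w ⟨h n, hhH n⟩ ≤ r}
  have hK : Convex ℝ K := by
    rintro w ⟨n1, h1⟩ w' ⟨n2, h2⟩ a b ha hb hab
    refine ⟨max n1 n2, fun n hn => ?_⟩
    have h3 := h1 n ((le_max_left _ _).trans hn)
    have h4 := h2 n ((le_max_right _ _).trans hn)
    change a * w ⟨h n, hhH n⟩ + b * w' ⟨h n, hhH n⟩ ≤ r
    calc a * w ⟨h n, hhH n⟩ + b * w' ⟨h n, hhH n⟩ ≤ a * r + b * r :=
          add_le_add (mul_le_mul_of_nonneg_left h3 ha) (mul_le_mul_of_nonneg_left h4 hb)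
      _ = r := by rw [← add_mul, hab, one_mul]
  have hTK : ∀ m, T (Rm D k m) ∈ K := by
    intro m
    refine ⟨m + 1, fun n hn => ?_⟩
    rw [TH_apply]
    have h4 := abs_le.1 (hclose n m)
    rw [gk_Rm, if_neg (by omega)] at h4
    have h5 : h n (Rm D k m) ≤ r := by linarith [h4.1]
    exact h5
  have hτK : τ ∈ closure K := by
    have h1 : toWeakSpace ℝ (ZH H) τ ∈ closure (toWeakSpace ℝ (ZH H) '' K) := by
      apply mem_closure_of_tendsto hτ
      exact Eventually.of_forall (fun m => ⟨_, hTK m, rfl⟩)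
    rw [← hK.toWeakSpace_closure ℝ] at h1
    obtain ⟨τ', hτ', heq⟩ := h1
    rw [← (toWeakSpace ℝ (ZH H)).injective heq]
    exact hτ'
  obtain ⟨w, ⟨n0, hw⟩, hdist⟩ := Metric.mem_closure_iff.1 hτK (1 / 2 - r) (by linarith)
  have h1 := hw n0 le_rfl
  have h2 := hτn n0
  have h3 : |(τ - w) ⟨h n0, hhH n0⟩| ≤ ‖τ - w‖ :=
    lp.norm_apply_le_norm ENNReal.top_ne_zero (τ - w) _
  rw [← dist_eq_norm] at h3
  have h4 : (τ - w) ⟨h n0, hhH n0⟩ = τ ⟨h n0, hhH n0⟩ - w ⟨h n0, hhH n0⟩ := rfl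
  rw [h4] at h3
  have h5 := (abs_le.1 h3).2
  linarith

end Pool.Agent.R268.Mac
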