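import Pool.Agent.R268.Mac.Ultra
import Pool.Agent.R268.Sobczyk

/-!
# Completely continuous operators on `ℓ_∞(S)`: absolute continuity with respect to finitely
many variations
-/

open Set Filter Topology
open scoped ENNReal

namespace Pool.Agent.R268.Mac

/-- Bounded real functions on `S`. -/
abbrev Linf (S : Type) := lp (fun _ : S => ℝ) ∞

variable {S : Type} {Z : Type*} [NormedAddCommGroup Z] [NormedSpace ℝ Z]

/-- Build an element of `ℓ_∞(S)`. -/
def mkL (f : S → ℝ) (C : ℝ) (h : ∀ s, |f s| ≤ C) : Linf S :=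
  ⟨f, memℓp_infty ⟨C, by rintro _ ⟨w, rfl⟩; exact h w⟩⟩

theorem mkL_apply (f : S → ℝ) (C : ℝ) (h : ∀ s, |f s| ≤ C) (s : S) : mkL f C h s = f s := rfl

theorem linf_norm_le {f : Linf S} {C : ℝ} (hC : 0 ≤ C) (h : ∀ w, |f w| ≤ C) : ‖f‖ ≤ C :=
  lp.norm_le_of_forall_le hC h

theorem abs_le_linf_norm (f : Linf S) (w : S) : |f w| ≤ ‖f‖ :=
  lp.norm_apply_le_norm ENNReal.top_ne_zero f w

theorem linf_add_apply (x y : Linf S) (s : S) : (x + y) s = x s + y s := rfl

theorem linf_sub_apply (x y : Linf S) (s : S) : (x - y) s = x s - y s := rfl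

theorem linf_smul_apply (c : ℝ) (y : Linf S) (s : S) : (c • y) s = c * y s := rfl

theorem linf_neg_apply (y : Linf S) (s : S) : (-y) s = - y s := rfl

theorem linf_zero_apply (s : S) : (0 : Linf S) s = 0 := rfl

/-- The total variation functional of `μ`. -/
noncomputable def V (μ : Linf S →L[ℝ] ℝ) (u : S → ℝ) : ℝ :=
  sSup {r | ∃ y : Linf S, (∀ s, |y s| ≤ u s) ∧ r = μ y}

theorem V_bdd (μ : Linf S →L[ℝ] ℝ) {u : S → ℝ} {C : ℝ} (hu : ∀ s, u s ≤ C) (hC : 0 ≤ C) :
    BddAbove {r | ∃ y : Linf S, (∀ s, |y s| ≤ u s) ∧ r = μ y} := by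
  refine ⟨‖μ‖ * C, ?_⟩
  rintro _ ⟨y, hy, rfl⟩
  calc μ y ≤ |μ y| := le_abs_self _
    _ ≤ ‖μ‖ * ‖y‖ := μ.le_opNorm y
    _ ≤ ‖μ‖ * C := mul_le_mul_of_nonneg_left
        (linf_norm_le hC (fun s => (hy s).trans (hu s))) (norm_nonneg _)

theorem le_V (μ : Linf S →L[ℝ] ℝ) {u : S → ℝ} {C : ℝ} (hu : ∀ s, u s ≤ C) (hC : 0 ≤ C)
    {y : Linf S} (hy : ∀ s, |y s| ≤ u s) : μ y ≤ V μ u :=
  le_csSup (V_bdd μ hu hC) ⟨y, hy, rfl⟩

theorem V_le (μ : Linf S →L[ℝ] ℝ) {u : S → ℝ} (hu0 : ∀ s, 0 ≤ u s) {c : ℝ}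
    (h : ∀ y : Linf S, (∀ s, |y s| ≤ u s) → μ y ≤ c) : V μ u ≤ c := by
  apply csSup_le
  · exact ⟨μ 0, 0, fun s => by rw [linf_zero_apply, abs_zero]; exact hu0 s, rfl⟩
  · rintro _ ⟨y, hy, rfl⟩
    exact h y hy

theorem V_nonneg (μ : Linf S →L[ℝ] ℝ) {u : S → ℝ} (hu0 : ∀ s, 0 ≤ u s) {C : ℝ}
    (hu : ∀ s, u s ≤ C) (hC : 0 ≤ C) : 0 ≤ V μ u := by
  have := le_V μ hu hC (y := 0) (fun s => by rw [linf_zero_apply, abs_zero]; exact hu0 s)
  rwa [map_zero] at this

theorem V_mono (μ : Linf S →L[ℝ] ℝ) {u v : S → ℝ} (hu0 : ∀ s, 0 ≤ u s) (huv : ∀ s, u s ≤ v s)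
    {C : ℝ} (hv : ∀ s, v s ≤ C) (hC : 0 ≤ C) : V μ u ≤ V μ v :=
  V_le μ hu0 (fun _ hy => le_V μ hv hC (fun s => (hy s).trans (huv s)))

theorem V_add (μ : Linf S →L[ℝ] ℝ) {u v : S → ℝ} (hu0 : ∀ s, 0 ≤ u s) (hv0 : ∀ s, 0 ≤ v s)
    {C : ℝ} (hu : ∀ s, u s ≤ C) (hv : ∀ s, v s ≤ C) (hC : 0 ≤ C) :
    V μ (u + v) = V μ u + V μ v := by
  have huv : ∀ s, (u + v) s ≤ C + C := fun s => add_le_add (hu s) (hv s)
  have huv0 : ∀ s, 0 ≤ (u + v) s := fun s => add_nonneg (hu0 s) (hv0 s)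
  apply le_antisymm
  · apply V_le μ huv0
    intro y hy
    have ht : ∀ s, |max (-u s) (min (y s) (u s))| ≤ u s := by
      intro s
      rw [abs_le]
      exact ⟨le_max_left _ _, max_le (by linarith [hu0 s]) (min_le_right _ _)⟩
    let y1 : Linf S := mkL (fun s => max (-u s) (min (y s) (u s))) C
      (fun s => (ht s).trans (hu s))
    have hy1 : ∀ s, |y1 s| ≤ u s := ht
    have hy2 : ∀ s, |(y - y1) s| ≤ v s := by
      intro s
      rw [linf_sub_apply]
      change |y s - max (-u s) (min (y s) (u s))| ≤ v s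
      have h1 := abs_le.1 (hy s)
      have h2 : (u + v) s = u s + v s := rfl
      rw [h2] at h1
      rw [abs_le]
      rcases le_total (y s) (u s) with h3 | h3
      · rw [min_eq_left h3]
        rcases le_total (-u s) (y s) with h4 | h4
        · rw [max_eq_right h4, sub_self]
          exact ⟨by linarith [hv0 s], hv0 s⟩
        · rw [max_eq_left h4]
          exact ⟨by linarith [h1.1], by linarith [hv0 s]⟩
      · rw [min_eq_right h3, max_eq_right (by linarith [hu0 s])]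
        exact ⟨by linarith [hv0 s], by linarith [h1.2]⟩
    have h5 : μ y = μ y1 + μ (y - y1) := by
      rw [map_sub]
      ring
    rw [h5]
    exact add_le_add (le_V μ hu hC hy1) (le_V μ hv hC hy2)
  · have h1 : ∀ y1 : Linf S, (∀ s, |y1 s| ≤ u s) → ∀ y2 : Linf S, (∀ s, |y2 s| ≤ v s) →
        μ y1 + μ y2 ≤ V μ (u + v) := by
      intro y1 hy1 y2 hy2
      rw [← map_add]
      apply le_V μ huv (add_nonneg hC hC)
      intro s
      rw [linf_add_apply]
      exact (abs_add_le _ _).trans (add_le_add (hy1 s) (hy2 s))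
    have h2 : ∀ y1 : Linf S, (∀ s, |y1 s| ≤ u s) → V μ v ≤ V μ (u + v) - μ y1 := by
      intro y1 hy1
      apply V_le μ hv0
      intro y2 hy2
      linarith [h1 y1 hy1 y2 hy2]
    have h3 : V μ u ≤ V μ (u + v) - V μ v := by
      apply V_le μ hu0
      intro y1 hy1
      linarith [h2 y1 hy1]
    linarith

theorem V_smul (μ : Linf S →L[ℝ] ℝ) {u : S → ℝ} (hu0 : ∀ s, 0 ≤ u s)
    {C : ℝ} (hu : ∀ s, u s ≤ C) (hC : 0 ≤ C) {c : ℝ} (hc : 0 < c) :
    V μ (fun s => c * u s) = c * V μ u := by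
  have hcu : ∀ s, c * u s ≤ c * C := fun s => mul_le_mul_of_nonneg_left (hu s) hc.le
  have hcu0 : ∀ s, 0 ≤ c * u s := fun s => mul_nonneg hc.le (hu0 s)
  apply le_antisymm
  · apply V_le μ hcu0
    intro y hy
    have h1 : ∀ s, |(c⁻¹ • y) s| ≤ u s := by
      intro s
      rw [linf_smul_apply, abs_mul, abs_of_pos (inv_pos.2 hc), inv_mul_le_iff₀ hc]
      exact hy s
    have h2 := le_V μ hu hC h1
    rw [map_smul, smul_eq_mul, inv_mul_le_iff₀ hc] at h2
    exact h2
  · rw [← le_div_iff₀' hc]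
    apply V_le μ hu0
    intro y hy
    rw [le_div_iff₀' hc]
    have h1 : ∀ s, |(c • y) s| ≤ c * u s := by
      intro s
      rw [linf_smul_apply, abs_mul, abs_of_pos hc]
      exact mul_le_mul_of_nonneg_left (hy s) hc.le
    have h2 := le_V μ hcu (mul_nonneg hc.le hC) h1
    rwa [map_smul, smul_eq_mul] at h2

/-- Indicator functions. -/
noncomputable def ind (E : Set S) : S → ℝ := E.indicator (fun _ => 1)

theorem ind_nonneg (E : Set S) (s : S) : 0 ≤ ind E s :=
  Set.indicator_nonneg (fun _ _ => zero_le_one) s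

theorem ind_le_one (E : Set S) (s : S) : ind E s ≤ 1 :=
  Set.indicator_le' (fun _ _ => le_rfl) (fun _ _ => zero_le_one) s

theorem ind_of_mem {E : Set S} {s : S} (h : s ∈ E) : ind E s = 1 := Set.indicator_of_mem h _

theorem ind_of_notMem {E : Set S} {s : S} (h : s ∉ E) : ind E s = 0 :=
  Set.indicator_of_notMem h _

theorem ind_mono {E F : Set S} (h : E ⊆ F) (s : S) : ind E s ≤ ind F s :=
  Set.indicator_le_indicator_of_subset h (fun _ => zero_le_one) s

theorem VI_nonneg (μ : Linf S →L[ℝ] ℝ) (E : Set S) : 0 ≤ V μ (ind E) :=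
  V_nonneg μ (ind_nonneg E) (ind_le_one E) zero_le_one

theorem VI_mono (μ : Linf S →L[ℝ] ℝ) {E F : Set S} (h : E ⊆ F) : V μ (ind E) ≤ V μ (ind F) :=
  V_mono μ (ind_nonneg E) (ind_mono h) (ind_le_one F) zero_le_one

theorem VI_union (μ : Linf S →L[ℝ] ℝ) (E F : Set S) :
    V μ (ind (E ∪ F)) ≤ V μ (ind E) + V μ (ind F) := by
  rw [← V_add μ (ind_nonneg E) (ind_nonneg F) (ind_le_one E) (ind_le_one F) zero_le_one]
  apply V_mono μ (ind_nonneg _) _ (C := 1 + 1) _ (by norm_num)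
  · intro s
    rw [Pi.add_apply]
    by_cases hE : s ∈ E
    · rw [ind_of_mem (E := E ∪ F) (Or.inl hE), ind_of_mem hE]
      linarith [ind_nonneg F s]
    · by_cases hF : s ∈ F
      · rw [ind_of_mem (E := E ∪ F) (Or.inr hF), ind_of_mem hF]
        linarith [ind_nonneg E s]
      · rw [ind_of_notMem (by rintro (h | h); exacts [hE h, hF h])]
        exact add_nonneg (ind_nonneg _ _) (ind_nonneg _ _)
  · intro s
    exact add_le_add (ind_le_one E s) (ind_le_one F s)

theorem VI_biUnion (μ : Linf S →L[ℝ] ℝ) (E : ℕ → Set S) (F : Finset ℕ) :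
    V μ (ind (⋃ m ∈ F, E m)) ≤ ∑ m ∈ F, V μ (ind (E m)) := by
  classical
  induction F using Finset.induction_on with
  | empty =>
    simp only [Finset.notMem_empty, Set.iUnion_of_empty, Set.iUnion_empty, Finset.sum_empty]
    apply V_le μ (ind_nonneg _)
    intro y hy
    have hy0 : y = 0 := by
      ext s
      have := hy s
      rw [ind_of_notMem (Set.notMem_empty s)] at this
      exact abs_nonpos_iff.1 this
    rw [hy0, map_zero]
  | insert a F ha ih =>
    rw [Finset.set_biUnion_insert, Finset.sum_insert ha]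
    exact (VI_union μ _ _).trans (by linarith)

/-- `E` is `ε`-small for `T`. -/
def Small (T : Linf S →L[ℝ] Z) (E : Set S) (ε : ℝ) : Prop :=
  ∀ x : Linf S, ‖x‖ ≤ 1 → (∀ s, s ∉ E → x s = 0) → ‖T x‖ ≤ ε

theorem Small.mono {T : Linf S →L[ℝ] Z} {E F : Set S} {ε : ℝ} (h : Small T F ε) (hEF : E ⊆ F) :
    Small T E ε :=
  fun x hx hxE => h x hx (fun s hs => hxE s (fun hsE => hs (hEF hsE)))

theorem small_empty (T : Linf S →L[ℝ] Z) {ε : ℝ} (hε : 0 ≤ ε) : Small T ∅ ε := by
  intro x _ hx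
  have : x = 0 := by
    ext s
    exact hx s (Set.notMem_empty s)
  rw [this, map_zero, norm_zero]
  exact hε

theorem V_le_of_small {T : Linf S →L[ℝ] Z} {E : Set S} {ε : ℝ} (h : Small T E ε)
    {f : Z →L[ℝ] ℝ} (hf : ‖f‖ ≤ 1) : V (f.comp T) (ind E) ≤ ε := by
  apply V_le _ (ind_nonneg E)
  intro y hy
  have h1 : ‖y‖ ≤ 1 := linf_norm_le zero_le_one (fun s => (hy s).trans (ind_le_one E s))
  have h2 : ∀ s, s ∉ E → y s = 0 := by
    intro s hs
    have := hy s
    rw [ind_of_notMem hs] at this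
    exact abs_nonpos_iff.1 this
  calc f (T y) ≤ |f (T y)| := le_abs_self _
    _ ≤ ‖f‖ * ‖T y‖ := f.le_opNorm _
    _ ≤ 1 * ‖T y‖ := mul_le_mul_of_nonneg_right hf (norm_nonneg _)
    _ = ‖T y‖ := one_mul _
    _ ≤ ε := h y h1 h2

theorem exists_V_of_not_small {T : Linf S →L[ℝ] Z} {E : Set S} {ε : ℝ} (h : ¬ Small T E ε) :
    ∃ f : Z →L[ℝ] ℝ, ‖f‖ ≤ 1 ∧ ε < V (f.comp T) (ind E) := by
  unfold Small at h
  push Not at h
  obtain ⟨x, hx, hxE, hTx⟩ := h
  obtain ⟨f, hf1, hf2⟩ := exists_dual_vector'' ℝ (T x)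
  refine ⟨f, hf1, lt_of_lt_of_le hTx ?_⟩
  have h1 : f (T x) = ‖T x‖ := by simpa using hf2
  rw [← h1]
  apply le_V (f.comp T) (ind_le_one E) zero_le_one (y := x)
  intro s
  by_cases hs : s ∈ E
  · rw [ind_of_mem hs]
    exact (abs_le_linf_norm x s).trans hx
  · rw [hxE s hs, ind_of_notMem hs, abs_zero]

theorem exhaust {T : Linf S →L[ℝ] Z} (hT : ComplCont T) {E : ℕ → Set S}
    (hE : ∀ i j, i ≠ j → Disjoint (E i) (E j)) {ε : ℝ} (hε : 0 < ε) : ∃ n, Small T (E n) ε := by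
  by_contra hcon
  push Not at hcon
  have h1 : ∀ n, ∃ x : Linf S, ‖x‖ ≤ 1 ∧ (∀ s, s ∉ E n → x s = 0) ∧ ε < ‖T x‖ := by
    intro n
    have := hcon n
    unfold Small at this
    push Not at this
    exact this
  choose x hx1 hx2 hx3 using h1
  have h2 : WConv x 0 := by
    apply wconv_zero_of_signs (C := 1)
    intro n e he
    apply linf_norm_le zero_le_one
    intro s
    have hs : (∑ i ∈ Finset.range n, e i • x i : Linf S) s
        = ∑ i ∈ Finset.range n, e i * x i s := by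
      rw [lp.coeFn_sum, Finset.sum_apply]
      rfl
    rw [hs]
    by_cases h : ∃ i ∈ Finset.range n, s ∈ E i
    · obtain ⟨i, hi, hsi⟩ := h
      rw [Finset.sum_eq_single i]
      · rw [abs_mul, he i, one_mul]
        exact (abs_le_linf_norm (x i) s).trans (hx1 i)
      · intro j _ hji
        rw [hx2 j s, mul_zero]
        intro hsj
        exact Set.disjoint_left.1 (hE j i hji) hsj hsi
      · intro hi'
        exact absurd hi hi'
    · push Not at h
      rw [Finset.sum_eq_zero, abs_zero]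
      · exact zero_le_one
      · intro i hi
        rw [hx2 i s (h i hi), mul_zero]
  have h3 := hT x 0 h2
  rw [map_zero] at h3
  have h4 := (tendsto_zero_iff_norm_tendsto_zero.1 h3).eventually (gt_mem_nhds hε)
  obtain ⟨n, hn⟩ := h4.exists
  exact absurd hn (not_lt.2 (hx3 n).le)

theorem exhaust_mono {T : Linf S →L[ℝ] Z} (hT : ComplCont T) {U : ℕ → Set S}
    (hU : Monotone U) {ε : ℝ} (hε : 0 < ε) : ∃ k, ∀ l, Small T (U l \ U k) ε := by
  by_contra hcon
  push Not at hcon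
  choose l hl using hcon
  have hlt : ∀ k, k < l k := by
    intro k
    by_contra hle
    apply hl k
    have : U (l k) \ U k = ∅ := by
      rw [Set.sdiff_eq_empty]
      exact hU (not_lt.1 hle)
    rw [this]
    exact small_empty T hε.le
  let n : ℕ → ℕ := fun j => l^[j] 0
  have hn : ∀ j, n (j + 1) = l (n j) := fun j => Function.iterate_succ_apply' l j 0
  have hmono : StrictMono n := strictMono_nat_of_lt_succ (fun j => by rw [hn]; exact hlt _)
  have hdisj : ∀ i j, i ≠ j → Disjoint (U (n (i + 1)) \ U (n i)) (U (n (j + 1)) \ U (n j)) := by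
    have key : ∀ i j, i < j → Disjoint (U (n (i + 1)) \ U (n i)) (U (n (j + 1)) \ U (n j)) := by
      intro i j hij
      rw [Set.disjoint_left]
      rintro s ⟨h1, -⟩ ⟨-, h2⟩
      exact h2 (hU (hmono.monotone (Nat.succ_le_of_lt hij)) h1)
    intro i j hij
    rcases lt_or_gt_of_ne hij with h | h
    · exact key i j h
    · exact (key j i h).symm
  obtain ⟨j, hj⟩ := exhaust hT hdisj hε
  rw [hn] at hj
  exact hl _ hj

/-- Absolute continuity: smallness is controlled by finitely many variations. -/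
theorem control {T : Linf S →L[ℝ] Z} (hT : ComplCont T) {ε : ℝ} (hε : 0 < ε) :
    ∃ (n : ℕ) (f : ℕ → (Z →L[ℝ] ℝ)) (δ : ℝ), 0 < δ ∧ ∀ E : Set S,
      (∀ i, i < n → V ((f i).comp T) (ind E) ≤ δ) → Small T E ε := by
  by_contra hcon
  push Not at hcon
  -- the sequences
  let P : ℕ → (ℕ → Set S × (Z →L[ℝ] ℝ)) → Prop := fun n s => ∀ k, k < n → ‖(s k).2‖ ≤ 1 ∧
    ε < V ((s k).2.comp T) (ind (s k).1) ∧
    ∀ i, i < k → V ((s i).2.comp T) (ind (s k).1) ≤ ε / 16 * (1 / 2) ^ k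
  obtain ⟨s, hs⟩ := Pool.Agent.R268.Sobczyk.exists_seq_of_step (α := Set S × (Z →L[ℝ] ℝ)) P
    (by
      intro n s t hst hP k hk
      rw [← hst k hk]
      refine ⟨(hP k hk).1, (hP k hk).2.1, ?_⟩
      intro i hi
      rw [← hst i (hi.trans hk)]
      exact (hP k hk).2.2 i hi)
    (by
      intro s k hk
      exact absurd hk (Nat.not_lt_zero k))
    (by
      intro n s hP
      obtain ⟨E, hE1, hE2⟩ := hcon n (fun i => (s i).2) (ε / 16 * (1 / 2) ^ n) (by positivity)
      obtain ⟨f, hf1, hf2⟩ := exists_V_of_not_small hE2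
      refine ⟨(E, f), ?_⟩
      intro k hk
      rcases Nat.lt_succ_iff_lt_or_eq.1 hk with hk' | rfl
      · rw [Function.update_of_ne hk'.ne]
        refine ⟨(hP k hk').1, (hP k hk').2.1, ?_⟩
        intro i hi
        rw [Function.update_of_ne (hi.trans hk').ne]
        exact (hP k hk').2.2 i hi
      · rw [Function.update_self]
        refine ⟨hf1, hf2, ?_⟩
        intro i hi
        rw [Function.update_of_ne hi.ne]
        exact hE1 i hi)
  let E : ℕ → Set S := fun n => (s n).1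
  let μ : ℕ → (Linf S →L[ℝ] ℝ) := fun n => (s n).2.comp T
  have hf : ∀ n, ‖(s n).2‖ ≤ 1 := fun n => (hs (n + 1) n (Nat.lt_succ_self n)).1
  have hV1 : ∀ n, ε < V (μ n) (ind (E n)) := fun n => (hs (n + 1) n (Nat.lt_succ_self n)).2.1
  have hV2 : ∀ n i, i < n → V (μ i) (ind (E n)) ≤ ε / 16 * (1 / 2) ^ n :=
    fun n i hi => (hs (n + 1) n (Nat.lt_succ_self n)).2.2 i hi
  have hsmall : ∀ (n : ℕ) {A : Set S} {c : ℝ}, Small T A c → V (μ n) (ind A) ≤ c :=
    fun n A c h => V_le_of_small h (hf n)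
  -- unions of blocks
  let U : ℕ → ℕ → Set S := fun a l => ⋃ m ∈ Finset.Ioc a l, E m
  have hUmono : ∀ a, Monotone (U a) := by
    intro a l l' hll'
    apply Set.biUnion_subset_biUnion_left
    intro m hm
    exact Finset.Ioc_subset_Ioc_right hll' hm
  have hk : ∀ a, ∃ k, a < k ∧ ∀ l, Small T (U a l \ U a k) (ε / 8 * (1 / 2) ^ a) := by
    intro a
    obtain ⟨k, hk⟩ := exhaust_mono hT (hUmono a) (ε := ε / 8 * (1 / 2) ^ a) (by positivity)
    refine ⟨max k (a + 1), lt_of_lt_of_le (Nat.lt_succ_self a) (le_max_right _ _), ?_⟩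
    intro l
    exact (hk l).mono (Set.sdiff_subset_sdiff_right (hUmono a (le_max_left _ _)))
  choose k hka hk using hk
  let n : ℕ → ℕ := fun j => k^[j] 0
  have hn : ∀ j, n (j + 1) = k (n j) := fun j => Function.iterate_succ_apply' k j 0
  have hmono : StrictMono n := strictMono_nat_of_lt_succ (fun j => by rw [hn]; exact hka _)
  let W : ℕ → Set S := fun j => U (n j) (n (j + 1))
  let G : ℕ → Set S := fun j => {x | ∀ i, i ≤ j → x ∈ W i}
  have hGanti : ∀ i j, i ≤ j → G j ⊆ G i := fun i j hij x hx m hm => hx m (hm.trans hij)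
  -- the part of `E m` outside `W j` is small
  have hW : ∀ j m, n j < m → V (μ m) (ind (E m \ W j)) ≤ ε / 8 * (1 / 2) ^ j := by
    intro j m hm
    have h1 : Small T (E m \ W j) (ε / 8 * (1 / 2) ^ (n j)) := by
      refine (hk (n j) m).mono ?_
      rintro x ⟨hx1, hx2⟩
      refine ⟨?_, ?_⟩
      · simp only [U, Set.mem_iUnion]
        exact ⟨m, Finset.mem_Ioc.2 ⟨hm, le_rfl⟩, hx1⟩
      · rw [← hn]
        exact hx2
    refine (hsmall m h1).trans ?_
    apply mul_le_mul_of_nonneg_left _ (by positivity)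
    exact pow_le_pow_of_le_one (by norm_num) (by norm_num) (hmono.le_apply)
  have hG : ∀ j m, n j < m → ε - ε / 8 * ∑ i ∈ Finset.range (j + 1), (1 / 2 : ℝ) ^ i
      < V (μ m) (ind (E m ∩ G j)) := by
    intro j
    induction j with
    | zero =>
      intro m hm
      have h1 : E m ⊆ (E m ∩ G 0) ∪ (E m \ W 0) := by
        intro x hx
        by_cases hxW : x ∈ W 0
        · refine Or.inl ⟨hx, ?_⟩
          intro i hi
          rw [Nat.le_zero.1 hi]
          exact hxW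
        · exact Or.inr ⟨hx, hxW⟩
      have h2 := (VI_mono (μ m) h1).trans (VI_union (μ m) _ _)
      have h3 := hW 0 m hm
      have h4 := hV1 m
      simp only [zero_add, Finset.sum_range_one, pow_zero, mul_one] at h3 ⊢
      linarith
    | succ j ih =>
      intro m hm
      have h1 : E m ∩ G j ⊆ (E m ∩ G (j + 1)) ∪ (E m \ W (j + 1)) := by
        rintro x ⟨hx, hxG⟩
        by_cases hxW : x ∈ W (j + 1)
        · refine Or.inl ⟨hx, ?_⟩
          intro i hi
          rcases Nat.le_succ_iff.1 hi with h | h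
          · exact hxG i h
          · rw [h]
            exact hxW
        · exact Or.inr ⟨hx, hxW⟩
      have h2 := (VI_mono (μ m) h1).trans (VI_union (μ m) _ _)
      have h3 := hW (j + 1) m hm
      have h4 := ih m ((hmono (Nat.lt_succ_self j)).trans hm)
      rw [Finset.sum_range_succ]
      linarith
  have hgeo : ∀ F : Finset ℕ, ∑ i ∈ F, (1 / 2 : ℝ) ^ i ≤ 2 := by
    intro F
    have := summable_geometric_two.sum_le_tsum F (fun i _ => by positivity)
    rwa [tsum_geometric_two] at this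
  have hG1 : ∀ j m, n j < m → 3 / 4 * ε < V (μ m) (ind (G j)) := by
    intro j m hm
    have h1 := hG j m hm
    have h2 : V (μ m) (ind (E m ∩ G j)) ≤ V (μ m) (ind (G j)) :=
      VI_mono (μ m) Set.inter_subset_right
    have h3 := hgeo (Finset.range (j + 1))
    have h4 : ε / 8 * ∑ i ∈ Finset.range (j + 1), (1 / 2 : ℝ) ^ i ≤ ε / 8 * 2 :=
      mul_le_mul_of_nonneg_left h3 (by positivity)
    linarith
  have hG2 : ∀ j m, m ≤ n j → V (μ m) (ind (G j)) ≤ ε / 8 := by
    intro j m hm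
    have h1 : G j ⊆ ⋃ m' ∈ Finset.Ioc (n j) (n (j + 1)), E m' := fun x hx => hx j le_rfl
    refine (VI_mono (μ m) h1).trans ((VI_biUnion (μ m) E _).trans ?_)
    calc ∑ m' ∈ Finset.Ioc (n j) (n (j + 1)), V (μ m) (ind (E m'))
        ≤ ∑ m' ∈ Finset.Ioc (n j) (n (j + 1)), ε / 16 * (1 / 2) ^ m' := by
          apply Finset.sum_le_sum
          intro m' hm'
          exact hV2 m' m (lt_of_le_of_lt hm (Finset.mem_Ioc.1 hm').1)
      _ = ε / 16 * ∑ m' ∈ Finset.Ioc (n j) (n (j + 1)), (1 / 2 : ℝ) ^ m' := by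
          rw [Finset.mul_sum]
      _ ≤ ε / 16 * 2 := mul_le_mul_of_nonneg_left (hgeo _) (by positivity)
      _ = ε / 8 := by ring
  have hD : ∀ j, ¬ Small T (G j \ G (j + 2)) (ε / 2) := by
    intro j hsm
    have h1 : G j ⊆ (G j \ G (j + 2)) ∪ G (j + 2) := by
      intro x hx
      by_cases h : x ∈ G (j + 2)
      · exact Or.inr h
      · exact Or.inl ⟨hx, h⟩
    let m := n j + 1
    have h2 := (VI_mono (μ m) h1).trans (VI_union (μ m) _ _)
    have h3 := hG1 j m (Nat.lt_succ_self _)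
    have h4 : m ≤ n (j + 2) :=
      Nat.succ_le_of_lt (hmono (by omega))
    have h5 := hG2 (j + 2) m h4
    have h6 := hsmall m hsm
    linarith
  have hdisj : ∀ i j, i ≠ j → Disjoint (G (2 * i) \ G (2 * i + 2)) (G (2 * j) \ G (2 * j + 2)) := by
    have key : ∀ i j, i < j →
        Disjoint (G (2 * i) \ G (2 * i + 2)) (G (2 * j) \ G (2 * j + 2)) := by
      intro i j hij
      rw [Set.disjoint_left]
      rintro x ⟨-, h1⟩ ⟨h2, -⟩
      exact h1 (hGanti _ _ (by omega) h2)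
    intro i j hij
    rcases lt_or_gt_of_ne hij with h | h
    · exact key i j h
    · exact (key j i h).symm
  obtain ⟨j, hj⟩ := exhaust hT hdisj (half_pos hε)
  exact hD (2 * j) hj

end Pool.Agent.R268.Mac
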