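import Pool.Agent.R268.Mac.Linf

/-!
# Completely continuous operators on `ℓ_∞(S)`: approximation of ultrafilter limits
-/

open Set Filter Topology
open scoped ENNReal

namespace Pool.Agent.R268.Mac

variable {S : Type} {Z : Type*} [NormedAddCommGroup Z] [NormedSpace ℝ Z]

/-- The square of a bounded function. -/
def sq (x : Linf S) : S → ℝ := fun s => (x s) ^ 2

theorem sq_nonneg' (x : Linf S) (s : S) : 0 ≤ sq x s := sq_nonneg _

theorem sq_le (x : Linf S) {C : ℝ} (hC : ‖x‖ ≤ C) (s : S) : sq x s ≤ C ^ 2 := by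
  unfold sq
  rw [← sq_abs]
  exact pow_le_pow_left₀ (abs_nonneg _) ((abs_le_linf_norm x s).trans hC) 2

theorem V_parallelogram (μ : Linf S →L[ℝ] ℝ) (x y : Linf S) :
    V μ (sq (x + y)) + V μ (sq (x - y)) = 2 * V μ (sq x) + 2 * V μ (sq y) := by
  let C : ℝ := (‖x‖ + ‖y‖) ^ 2
  have hC : 0 ≤ C := by positivity
  have h1 : ∀ s, sq (x + y) s ≤ C := fun s => sq_le _ (norm_add_le x y) s
  have h2 : ∀ s, sq (x - y) s ≤ C := fun s => sq_le _ (norm_sub_le x y) s
  have h3 : ∀ s, sq x s ≤ C := fun s => sq_le _ (by linarith [norm_nonneg y]) s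
  have h4 : ∀ s, sq y s ≤ C := fun s => sq_le _ (by linarith [norm_nonneg x]) s
  rw [← V_add μ (sq_nonneg' _) (sq_nonneg' _) h1 h2 hC,
    ← V_smul μ (sq_nonneg' _) h3 hC two_pos, ← V_smul μ (sq_nonneg' _) h4 hC two_pos,
    ← V_add μ (fun s => mul_nonneg zero_le_two (sq_nonneg' _ s))
      (fun s => mul_nonneg zero_le_two (sq_nonneg' _ s)) (C := 2 * C)
      (fun s => mul_le_mul_of_nonneg_left (h3 s) zero_le_two)
      (fun s => mul_le_mul_of_nonneg_left (h4 s) zero_le_two) (by positivity)]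
  congr 1
  funext s
  simp only [Pi.add_apply, sq, linf_add_apply, linf_sub_apply]
  ring

theorem V_half (μ : Linf S →L[ℝ] ℝ) (x : Linf S) :
    V μ (sq ((1 / 2 : ℝ) • x)) = 1 / 4 * V μ (sq x) := by
  rw [← V_smul μ (sq_nonneg' _) (fun s => sq_le _ le_rfl s) (by positivity) (by norm_num)]
  congr 1
  funext s
  simp only [sq, linf_smul_apply]
  ring

theorem V_chebyshev (μ : Linf S →L[ℝ] ℝ) (x : Linf S) {t : ℝ} (ht : 0 < t) :
    V μ (ind {s | t < |x s|}) ≤ (t ^ 2)⁻¹ * V μ (sq x) := by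
  rw [← V_smul μ (sq_nonneg' _) (fun s => sq_le _ le_rfl s) (by positivity)
    (inv_pos.2 (pow_pos ht 2))]
  apply V_mono μ (ind_nonneg _) _ (C := (t ^ 2)⁻¹ * ‖x‖ ^ 2)
  · intro s
    exact mul_le_mul_of_nonneg_left (sq_le _ le_rfl s) (by positivity)
  · positivity
  · intro s
    by_cases h : s ∈ {s | t < |x s|}
    · rw [ind_of_mem h, le_inv_mul_iff₀ (by positivity), mul_one]
      unfold sq
      rw [← sq_abs (x s)]
      exact pow_le_pow_left₀ ht.le (le_of_lt h) 2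
    · rw [ind_of_notMem h]
      exact mul_nonneg (by positivity) (sq_nonneg' _ _)

/-- Restriction to a set. -/
noncomputable def res (E : Set S) (x : Linf S) : Linf S :=
  mkL (E.indicator x) ‖x‖ (by
    intro s
    by_cases h : s ∈ E
    · rw [Set.indicator_of_mem h]
      exact abs_le_linf_norm x s
    · rw [Set.indicator_of_notMem h, abs_zero]
      exact norm_nonneg _)

theorem res_of_mem {E : Set S} (x : Linf S) {s : S} (h : s ∈ E) : res E x s = x s :=
  Set.indicator_of_mem h _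

theorem res_of_notMem {E : Set S} (x : Linf S) {s : S} (h : s ∉ E) : res E x s = 0 :=
  Set.indicator_of_notMem h _

theorem norm_le_of_small {T : Linf S →L[ℝ] Z} {x : Linf S} {t ε : ℝ} (ht : 0 ≤ t)
    (h : Small T {s | t < |x s|} ε) {R : ℝ} (hR : 0 < R) (hx : ‖x‖ ≤ R) :
    ‖T x‖ ≤ ‖T‖ * t + R * ε := by
  let E : Set S := {s | t < |x s|}
  have h1 : x = res Eᶜ x + res E x := by
    ext s
    change x s = (res Eᶜ x + res E x) s
    rw [linf_add_apply]
    by_cases hs : s ∈ E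
    · rw [res_of_mem x hs, res_of_notMem x (Set.notMem_compl_iff.2 hs), zero_add]
    · rw [res_of_notMem x hs, res_of_mem x hs, add_zero]
  have h2 : ‖res Eᶜ x‖ ≤ t := by
    apply linf_norm_le ht
    intro s
    by_cases hs : s ∈ E
    · rw [res_of_notMem x (Set.notMem_compl_iff.2 hs), abs_zero]
      exact ht
    · rw [res_of_mem x hs]
      exact not_lt.1 hs
  have h3 : ‖T (res E x)‖ ≤ R * ε := by
    have h4 : ‖R⁻¹ • res E x‖ ≤ 1 := by
      rw [norm_smul, norm_inv, Real.norm_of_nonneg hR.le, inv_mul_le_one₀ hR]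
      apply linf_norm_le hR.le
      intro s
      by_cases hs : s ∈ E
      · rw [res_of_mem x hs]
        exact (abs_le_linf_norm x s).trans hx
      · rw [res_of_notMem x hs, abs_zero]
        exact hR.le
    have h5 := h (R⁻¹ • res E x) h4 (by
      intro s hs
      rw [linf_smul_apply, res_of_notMem x hs, mul_zero])
    rw [map_smul, norm_smul, norm_inv, Real.norm_of_nonneg hR.le, inv_mul_le_iff₀ hR] at h5
    exact h5
  calc ‖T x‖ = ‖T (res Eᶜ x) + T (res E x)‖ := by rw [← map_add, ← h1]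
    _ ≤ ‖T (res Eᶜ x)‖ + ‖T (res E x)‖ := norm_add_le _ _
    _ ≤ ‖T‖ * t + R * ε := add_le_add ((T.le_opNorm _).trans
        (mul_le_mul_of_nonneg_left h2 T.opNorm_nonneg)) h3

/-- Limits along ultrafilters of the values of a completely continuous operator on `ℓ_∞(S)` are
approximated by values. -/
theorem ultra_approx {T : Linf S →L[ℝ] Z} (hT : ComplCont T) (U : Ultrafilter (Linf S)) {R : ℝ}
    (hR : 0 < R) (hU : Metric.closedBall 0 R ∈ U) {ε : ℝ} (hε : 0 < ε) :
    ∃ z : Z, ∀ f : Z →L[ℝ] ℝ, ‖f‖ ≤ 1 → ∀ c, Tendsto (fun x => f (T x)) U (𝓝 c) →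
      |c - f z| ≤ ε := by
  have hε' : 0 < ε / (8 * R) := by positivity
  obtain ⟨n, g, δ, hδ, hctrl⟩ := control hT hε'
  let t : ℝ := ε / (4 * (‖T‖ + 1))
  have hTn : 0 ≤ ‖T‖ := T.opNorm_nonneg
  have ht : 0 < t := by positivity
  have hTt : ‖T‖ * t ≤ ε / 4 := by
    simp only [t]
    rw [mul_div_assoc', div_le_div_iff₀ (by positivity) (by norm_num)]
    nlinarith
  let q : Linf S → ℝ := fun x => ∑ i ∈ Finset.range n, V ((g i).comp T) (sq x)
  have hVnn : ∀ (i : ℕ) (x : Linf S), 0 ≤ V ((g i).comp T) (sq x) := fun i x =>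
    V_nonneg _ (sq_nonneg' _) (fun s => sq_le _ le_rfl s) (by positivity)
  have hq0 : ∀ x, 0 ≤ q x := fun x => Finset.sum_nonneg (fun i _ => hVnn i x)
  have hqp : ∀ x y, q (x - y) = 2 * q x + 2 * q y - 4 * q ((1 / 2 : ℝ) • (x + y)) := by
    intro x y
    simp only [q, V_half]
    rw [Finset.mul_sum, Finset.mul_sum, Finset.mul_sum, ← Finset.sum_add_distrib,
      ← Finset.sum_sub_distrib]
    apply Finset.sum_congr rfl
    intro i _
    have := V_parallelogram ((g i).comp T) x y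
    linarith
  have hqc : ∀ (x : Linf S) (i : ℕ), i < n →
      V ((g i).comp T) (ind {s | t < |x s|}) ≤ (t ^ 2)⁻¹ * q x := by
    intro x i hi
    refine (V_chebyshev _ x ht).trans ?_
    apply mul_le_mul_of_nonneg_left _ (by positivity)
    exact Finset.single_le_sum (f := fun i => V ((g i).comp T) (sq x))
      (fun j _ => hVnn j x) (Finset.mem_range.2 hi)
  -- the bound of `q` on the ball
  let Q : ℝ := ∑ i ∈ Finset.range n, ‖(g i).comp T‖ * R ^ 2
  have hqQ : ∀ x : Linf S, ‖x‖ ≤ R → q x ≤ Q := by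
    intro x hx
    apply Finset.sum_le_sum
    intro i _
    apply V_le _ (sq_nonneg' _)
    intro y hy
    have h1 : ‖y‖ ≤ R ^ 2 := linf_norm_le (by positivity)
      (fun s => (hy s).trans (sq_le x hx s))
    calc ((g i).comp T) y ≤ |((g i).comp T) y| := le_abs_self _
      _ ≤ ‖(g i).comp T‖ * ‖y‖ := ((g i).comp T).le_opNorm y
      _ ≤ ‖(g i).comp T‖ * R ^ 2 := mul_le_mul_of_nonneg_left h1 (ContinuousLinearMap.opNorm_nonneg _)
  -- infima over convex hulls
  let cA : Set (Linf S) → ℝ := fun A => sInf (q '' convexHull ℝ A)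
  have hbdd : ∀ A : Set (Linf S), BddBelow (q '' convexHull ℝ A) := by
    intro A
    refine ⟨0, ?_⟩
    rintro _ ⟨x, -, rfl⟩
    exact hq0 x
  have hcAle : ∀ A : Set (Linf S), ∀ x ∈ convexHull ℝ A, cA A ≤ q x :=
    fun A x hx => csInf_le (hbdd A) ⟨x, hx, rfl⟩
  have hhull : ∀ A : Set (Linf S), A ⊆ Metric.closedBall 0 R → ∀ x ∈ convexHull ℝ A, ‖x‖ ≤ R := by
    intro A hA x hx
    have h1 := convexHull_min hA (convex_closedBall 0 R) hx
    rwa [mem_closedBall_zero_iff] at h1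
  let 𝒜 : Set (Set (Linf S)) := {A | A ∈ U ∧ A ⊆ Metric.closedBall 0 R}
  have hne : ∀ A ∈ 𝒜, (convexHull ℝ A).Nonempty := by
    rintro A ⟨hA, -⟩
    exact (U.nonempty_of_mem hA).convexHull
  have hcQ : ∀ A ∈ 𝒜, cA A ≤ Q := by
    intro A hA
    obtain ⟨x, hx⟩ := hne A hA
    exact (hcAle A x hx).trans (hqQ x (hhull A hA.2 x hx))
  let c : ℝ := sSup (cA '' 𝒜)
  have hcbdd : BddAbove (cA '' 𝒜) := by
    refine ⟨Q, ?_⟩
    rintro _ ⟨A, hA, rfl⟩
    exact hcQ A hA
  have hcAc : ∀ A ∈ 𝒜, cA A ≤ c := fun A hA => le_csSup hcbdd ⟨A, hA, rfl⟩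
  have h𝒜ne : (cA '' 𝒜).Nonempty := ⟨_, Metric.closedBall 0 R, ⟨hU, subset_rfl⟩, rfl⟩
  let τ : ℝ := δ * t ^ 2 / 8
  have hτ : 0 < τ := by positivity
  obtain ⟨_, ⟨A, hA, rfl⟩, hAc⟩ := exists_lt_of_lt_csSup h𝒜ne (show c - τ < c by linarith)
  have hfind : ∀ B ∈ 𝒜, ∃ y ∈ convexHull ℝ B, q y < c + τ := by
    intro B hB
    have h1 : cA B < c + τ := lt_of_le_of_lt (hcAc B hB) (by linarith)
    obtain ⟨_, ⟨y, hy, rfl⟩, hlt⟩ := exists_lt_of_csInf_lt ((hne B hB).image q) h1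
    exact ⟨y, hy, hlt⟩
  obtain ⟨y, hy, hqy⟩ := hfind A hA
  refine ⟨T y, ?_⟩
  intro f hf cf hcf
  let B : Set (Linf S) := A ∩ {x | |f (T x) - cf| ≤ ε / 4}
  have hB : B ∈ 𝒜 := by
    refine ⟨inter_mem hA.1 ?_, Set.inter_subset_left.trans hA.2⟩
    have h1 : Metric.closedBall cf (ε / 4) ∈ 𝓝 cf := Metric.closedBall_mem_nhds _ (by positivity)
    filter_upwards [hcf h1] with x hx
    rw [Set.mem_preimage, Metric.mem_closedBall, Real.dist_eq] at hx
    exact hx
  obtain ⟨yB, hyB, hqyB⟩ := hfind B hB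
  have hyBA : yB ∈ convexHull ℝ A := convexHull_mono Set.inter_subset_left hyB
  have hmid : (1 / 2 : ℝ) • (y + yB) ∈ convexHull ℝ A := by
    rw [smul_add]
    exact (convex_convexHull ℝ A) hy hyBA (by norm_num) (by norm_num) (by norm_num)
  have h1 : q (y - yB) ≤ 8 * τ := by
    rw [hqp]
    have := hcAle A _ hmid
    linarith
  have h2 : ‖y - yB‖ ≤ 2 * R := by
    have h3 := hhull A hA.2 y hy
    have h4 := hhull A hA.2 yB hyBA
    calc ‖y - yB‖ ≤ ‖y‖ + ‖yB‖ := norm_sub_le _ _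
      _ ≤ 2 * R := by linarith
  have h3 : Small T {s | t < |(y - yB) s|} (ε / (8 * R)) := by
    apply hctrl
    intro i hi
    refine (hqc _ i hi).trans ?_
    rw [inv_mul_le_iff₀ (by positivity)]
    calc q (y - yB) ≤ 8 * τ := h1
      _ = t ^ 2 * δ := by
        simp only [τ]
        ring
  have h4 := norm_le_of_small ht.le h3 (by positivity) h2
  have h5 : 2 * R * (ε / (8 * R)) = ε / 4 := by
    field_simp
    norm_num
  rw [h5] at h4
  have h6 : |f (T yB) - cf| ≤ ε / 4 := by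
    have hconv : Convex ℝ {x : Linf S | |f (T x) - cf| ≤ ε / 4} := by
      have h7 : {x : Linf S | |f (T x) - cf| ≤ ε / 4}
          = (f.comp T) ⁻¹' (Metric.closedBall cf (ε / 4)) := by
        ext x
        rw [Set.mem_preimage, Metric.mem_closedBall, Real.dist_eq]
        rfl
      rw [h7]
      exact (convex_closedBall cf (ε / 4)).linear_preimage (f.comp T).toLinearMap
    exact convexHull_min Set.inter_subset_right hconv hyB
  have h7 : |f (T y) - f (T yB)| ≤ ε / 4 + ε / 4 := by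
    rw [← map_sub, ← map_sub]
    calc |f (T (y - yB))| ≤ ‖f‖ * ‖T (y - yB)‖ := f.le_opNorm _
      _ ≤ 1 * ‖T (y - yB)‖ := mul_le_mul_of_nonneg_right hf (norm_nonneg _)
      _ ≤ ε / 4 + ε / 4 := by
          rw [one_mul]
          linarith
  have h8 := abs_le.1 h6
  have h9 := abs_le.1 h7
  rw [abs_le]
  constructor <;> linarith [h8.1, h8.2, h9.1, h9.2]

end Pool.Agent.R268.Mac
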