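import Pool.Agent.R268.Mac.Space

/-!
# The space has the reciprocal Dunford-Pettis property
-/

open Set Filter Topology
open scoped ENNReal

namespace Pool.Agent.R268.Mac

variable {X : Type} [NormedAddCommGroup X] [NormedSpace ℝ X] (D : Data X)

/-- The embedding of the bounded functions as the `k`-th summand. -/
noncomputable def iota (k : ℕ) : Linf Sq →L[ℝ] X :=
  (D.Q.comp (C0.single k)).comp
    (((k : ℝ) + 1) • ContinuousLinearMap.inr ℝ l1 (Linf Sq))

theorem iota_apply (k : ℕ) (y : Linf Sq) :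
    iota D k y = D.Q (C0.single k (((k : ℝ) + 1) • ((0 : l1), y))) := rfl

theorem Q_single (k : ℕ) (m : EE) :
    D.Q (C0.single k (C0.co m k)) = iota D k (D.y k (D.Q m)) := by
  rw [iota_apply, ← sub_eq_zero, ← map_sub]
  apply D.Q_eq_zero
  intro j
  rw [C0.co_sub, C0.co_single, C0.co_single, D.y_Q]
  have hk : ((k : ℝ) + 1) ≠ 0 := by positivity
  by_cases h : j = k
  · subst h
    rw [if_pos rfl, if_pos rfl, map_sub, map_smul, pk_apply j ((0 : l1), _), map_zero, zero_add,
      smul_smul, mul_inv_cancel₀ hk, one_smul, sub_self]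
  · rw [if_neg h, if_neg h, sub_zero, map_zero]

theorem Q_trunc (N : ℕ) (m : EE) :
    D.Q (C0.trunc N m) = ∑ k ∈ Finset.range N, iota D k (D.y k (D.Q m)) := by
  unfold C0.trunc
  rw [map_sum]
  apply Finset.sum_congr rfl
  intro k _
  exact Q_single D k m

theorem norm_y_le (k : ℕ) {x : X} (hx : ‖x‖ ≤ 1) : ‖D.y k x‖ ≤ 4 := by
  obtain ⟨m, rfl, hm⟩ := D.lift x hx
  rw [D.y_Q]
  calc ‖pk k (C0.co m k)‖ ≤ 2 * ‖C0.co m k‖ := norm_pk_le k _
    _ ≤ 2 * ‖m‖ := mul_le_mul_of_nonneg_left (C0.norm_co_le m k) zero_le_two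
    _ ≤ 4 := by linarith

include D in
theorem wcompactOp_of_complCont {Z : Type*} [NormedAddCommGroup Z] [NormedSpace ℝ Z]
    [CompleteSpace Z] (T : X →L[ℝ] Z) (hT : ComplCont T) : WCompactOp T := by
  apply wcompactOp_of_ultra
  intro U hU ε hε
  obtain ⟨N, hN⟩ := C0.tail_small (hT.comp D.Q) (ε := ε / 4) (by positivity)
  let η : ℝ := ε / (2 * ((N : ℝ) + 1))
  have hη : 0 < η := by positivity
  have hz : ∀ k : ℕ, ∃ z : Z, ∀ f : Z →L[ℝ] ℝ, ‖f‖ ≤ 1 → ∀ c,
      Tendsto (fun y => f (T (iota D k y))) (U.map (D.y k)) (𝓝 c) → |c - f z| ≤ η := by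
    intro k
    have hUk : Metric.closedBall 0 4 ∈ U.map (D.y k) := by
      change (D.y k) ⁻¹' Metric.closedBall 0 4 ∈ U
      filter_upwards [hU] with x hx
      rw [mem_closedBall_zero_iff] at hx
      rw [Set.mem_preimage, mem_closedBall_zero_iff]
      exact norm_y_le D k hx
    exact ultra_approx (hT.comp (iota D k)) (U.map (D.y k)) (R := 4) (by norm_num) hUk hη
  choose z hz using hz
  refine ⟨∑ k ∈ Finset.range N, z k, ?_⟩
  intro f hf c hc
  have hck : ∀ k : ℕ, ∃ ck, Tendsto (fun x => f (T (iota D k (D.y k x)))) U (𝓝 ck) := by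
    intro k
    obtain ⟨ck, -, hck⟩ := exists_ultra_lim U (fun x => f (T (iota D k (D.y k x))))
      (Metric.closedBall 0 1) hU (‖f.comp (T.comp (iota D k))‖ * 4) (by
        intro x hx
        rw [mem_closedBall_zero_iff] at hx
        calc |f (T (iota D k (D.y k x)))| ≤ ‖f.comp (T.comp (iota D k))‖ * ‖D.y k x‖ :=
              (f.comp (T.comp (iota D k))).le_opNorm _
          _ ≤ ‖f.comp (T.comp (iota D k))‖ * 4 :=
              mul_le_mul_of_nonneg_left (norm_y_le D k hx) (ContinuousLinearMap.opNorm_nonneg _))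
    exact ⟨ck, hck⟩
  choose ck hck using hck
  have h1 : ∀ k, |ck k - f (z k)| ≤ η := fun k => hz k f hf (ck k) (hck k)
  have h2 : |c - ∑ k ∈ Finset.range N, ck k| ≤ ε / 2 := by
    have h3 : Tendsto (fun x => |f (T x) - ∑ k ∈ Finset.range N, f (T (iota D k (D.y k x)))|) U
        (𝓝 |c - ∑ k ∈ Finset.range N, ck k|) :=
      (hc.sub (tendsto_finsetSum _ (fun k _ => hck k))).abs
    apply le_of_tendsto h3
    filter_upwards [hU] with x hx
    rw [mem_closedBall_zero_iff] at hx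
    obtain ⟨m, rfl, hm⟩ := D.lift x hx
    rw [← map_sum f, ← map_sum T, ← Q_trunc, ← map_sub, ← map_sub, ← map_sub]
    have h4 : ‖(1 / 2 : ℝ) • m‖ ≤ 1 := by
      rw [norm_smul, Real.norm_of_nonneg (by norm_num)]
      linarith
    have h5 := hN _ h4
    have h6 : C0.trunc N ((1 / 2 : ℝ) • m) = (1 / 2 : ℝ) • C0.trunc N m := by
      unfold C0.trunc
      rw [Finset.smul_sum]
      apply Finset.sum_congr rfl
      intro k _
      rw [C0.co_smul, map_smul]
    rw [h6, ← smul_sub, map_smul, norm_smul, Real.norm_of_nonneg (by norm_num)] at h5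
    have h7 : ‖T (D.Q (m - C0.trunc N m))‖ ≤ ε / 2 := by
      have h8 : ‖(T.comp D.Q) (m - C0.trunc N m)‖ = ‖T (D.Q (m - C0.trunc N m))‖ := rfl
      rw [h8] at h5
      linarith
    calc |f (T (D.Q (m - C0.trunc N m)))| ≤ ‖f‖ * ‖T (D.Q (m - C0.trunc N m))‖ := f.le_opNorm _
      _ ≤ 1 * ‖T (D.Q (m - C0.trunc N m))‖ := mul_le_mul_of_nonneg_right hf (norm_nonneg _)
      _ ≤ ε / 2 := by rw [one_mul]; exact h7
  have h3 : |∑ k ∈ Finset.range N, ck k - f (∑ k ∈ Finset.range N, z k)| ≤ ε / 2 := by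
    rw [map_sum, ← Finset.sum_sub_distrib]
    calc |∑ k ∈ Finset.range N, (ck k - f (z k))|
        ≤ ∑ k ∈ Finset.range N, |ck k - f (z k)| := Finset.abs_sum_le_sum_abs _ _
      _ ≤ ∑ k ∈ Finset.range N, η := Finset.sum_le_sum (fun k _ => h1 k)
      _ = N * η := by rw [Finset.sum_const, Finset.card_range, nsmul_eq_mul]
      _ ≤ ε / 2 := by
          simp only [η]
          rw [mul_div_assoc', div_le_div_iff₀ (by positivity) (by norm_num)]
          nlinarith
  calc |c - f (∑ k ∈ Finset.range N, z k)|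
      = |(c - ∑ k ∈ Finset.range N, ck k)
        + (∑ k ∈ Finset.range N, ck k - f (∑ k ∈ Finset.range N, z k))| := by
          rw [sub_add_sub_cancel]
    _ ≤ |c - ∑ k ∈ Finset.range N, ck k|
        + |∑ k ∈ Finset.range N, ck k - f (∑ k ∈ Finset.range N, z k)| := abs_add_le _ _
    _ ≤ ε := by linarith

include D in
theorem rdpp_of_data : RDPP X := fun Z _ _ _ T hT => wcompactOp_of_complCont D T hT

end Pool.Agent.R268.Mac
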