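import Pool.Agent.R268.Mac.C0
import Pool.Agent.R268.Mac.LinfUltra

/-!
# The space
-/

open Set Filter Topology
open scoped ENNReal

namespace Pool.Agent.R268.Mac

/-- Signs. -/
def sg (b : Bool) : ℝ := if b then 1 else -1

theorem abs_sg (b : Bool) : |sg b| = 1 := by
  unfold sg
  split_ifs <;> simp

theorem sg_true : sg true = 1 := rfl

theorem sg_false : sg false = -1 := rfl

theorem sg_not (b : Bool) : sg (!b) = - sg b := by
  cases b <;> simp [sg]

/-- Sign sequences. -/
abbrev Sq := ℕ → Bool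

/-- Absolutely summable sequences. -/
abbrev l1 := lp (fun _ : ℕ => ℝ) 1

theorem l1_summable (t : l1) : Summable (fun i => |t i|) := by
  have := (lp.memℓp t).summable (by norm_num : 0 < (1 : ℝ≥0∞).toReal)
  simpa using this

theorem l1_norm (t : l1) : ‖t‖ = ∑' i, |t i| := by
  rw [lp.norm_eq_tsum_rpow (by norm_num)]
  simp

theorem summable_sg (θ : Sq) {v : ℕ → ℝ} (hv : Summable (fun i => |v i|)) :
    Summable (fun i => sg (θ i) * v i) := by
  apply Summable.of_norm
  have : (fun i => ‖sg (θ i) * v i‖) = fun i => |v i| := by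
    funext i
    rw [Real.norm_eq_abs, abs_mul, abs_sg, one_mul]
  rw [this]
  exact hv

theorem abs_tsum_sg_le (θ : Sq) {v : ℕ → ℝ} (hv : Summable (fun i => |v i|)) :
    |∑' i, sg (θ i) * v i| ≤ ∑' i, |v i| := by
  have h1 : ∀ i, ‖sg (θ i) * v i‖ = |v i| := by
    intro i
    rw [Real.norm_eq_abs, abs_mul, abs_sg, one_mul]
  have h2 := norm_tsum_le_tsum_norm (f := fun i => sg (θ i) * v i) (by simpa only [h1] using hv)
  simpa only [h1, Real.norm_eq_abs] using h2

/-- The embedding of `ℓ_1` into the bounded functions on the sign sequences. -/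
noncomputable def J : l1 →L[ℝ] Linf Sq :=
  LinearMap.mkContinuous
    { toFun := fun t => mkL (fun θ => ∑' i, sg (θ i) * t i) ‖t‖ (fun θ => by
        rw [l1_norm]
        exact abs_tsum_sg_le θ (l1_summable t))
      map_add' := by
        intro x y
        ext θ
        change ∑' i, sg (θ i) * (x i + y i) = (∑' i, sg (θ i) * x i) + ∑' i, sg (θ i) * y i
        rw [← Summable.tsum_add (summable_sg θ (l1_summable x)) (summable_sg θ (l1_summable y))]
        simp only [mul_add]
      map_smul' := by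
        intro c x
        ext θ
        change ∑' i, sg (θ i) * (c * x i) = c * ∑' i, sg (θ i) * x i
        rw [← tsum_mul_left]
        apply tsum_congr
        intro i
        ring } 1 (by
      intro t
      rw [one_mul]
      apply linf_norm_le (norm_nonneg _)
      intro θ
      change |∑' i, sg (θ i) * t i| ≤ ‖t‖
      rw [l1_norm]
      exact abs_tsum_sg_le θ (l1_summable t))

theorem J_apply (t : l1) (θ : Sq) : J t θ = ∑' i, sg (θ i) * t i := rfl

theorem norm_J_le (t : l1) : ‖J t‖ ≤ ‖t‖ := by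
  apply linf_norm_le (norm_nonneg _)
  intro θ
  rw [J_apply, l1_norm]
  exact abs_tsum_sg_le θ (l1_summable t)

/-- The building block before the quotient. -/
abbrev FF := l1 × Linf Sq

/-- The quotient map of the `k`-th block. -/
noncomputable def pk (k : ℕ) : FF →L[ℝ] Linf Sq :=
  J.comp (ContinuousLinearMap.fst ℝ l1 (Linf Sq)) +
    ((k : ℝ) + 1)⁻¹ • ContinuousLinearMap.snd ℝ l1 (Linf Sq)

theorem pk_apply (k : ℕ) (w : FF) : pk k w = J w.1 + ((k : ℝ) + 1)⁻¹ • w.2 := rfl

theorem norm_pk_le (k : ℕ) (w : FF) : ‖pk k w‖ ≤ 2 * ‖w‖ := by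
  rw [pk_apply]
  have h1 : ((k : ℝ) + 1)⁻¹ ≤ 1 := by
    apply inv_le_one_of_one_le₀
    have : (0 : ℝ) ≤ k := Nat.cast_nonneg k
    linarith
  have h0 : 0 ≤ ((k : ℝ) + 1)⁻¹ := by positivity
  calc ‖J w.1 + ((k : ℝ) + 1)⁻¹ • w.2‖ ≤ ‖J w.1‖ + ‖((k : ℝ) + 1)⁻¹ • w.2‖ := norm_add_le _ _
    _ ≤ ‖w.1‖ + ‖w.2‖ := by
        apply add_le_add (norm_J_le _)
        rw [norm_smul, Real.norm_of_nonneg h0]
        calc ((k : ℝ) + 1)⁻¹ * ‖w.2‖ ≤ 1 * ‖w.2‖ := mul_le_mul_of_nonneg_right h1 (norm_nonneg _)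
          _ = ‖w.2‖ := one_mul _
    _ ≤ 2 * ‖w‖ := by
        have h2 : ‖w.1‖ ≤ ‖w‖ := norm_fst_le w
        have h3 : ‖w.2‖ ≤ ‖w‖ := norm_snd_le w
        linarith

/-- The big space before the quotient. -/
noncomputable abbrev EE := C0 FF

noncomputable section

/-- The data of the space: a quotient map with coordinate maps. -/
structure Data (X : Type) [NormedAddCommGroup X] [NormedSpace ℝ X] where
  /-- quotient map -/
  Q : EE →L[ℝ] X
  norm_Q : ∀ m, ‖Q m‖ ≤ ‖m‖
  lift : ∀ x : X, ‖x‖ ≤ 1 → ∃ m, Q m = x ∧ ‖m‖ ≤ 2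
  /-- coordinate maps -/
  y : ℕ → X →L[ℝ] Linf Sq
  y_Q : ∀ k m, y k (Q m) = pk k (C0.co m k)
  Q_eq_zero : ∀ m, (∀ k, pk k (C0.co m k) = 0) → Q m = 0

end

/-- The kernel. -/
noncomputable def MM : Submodule ℝ EE where
  carrier := {m | ∀ k, pk k (C0.co m k) = 0}
  add_mem' := by
    intro x y hx hy k
    rw [C0.co_add, map_add, hx k, hy k, add_zero]
  zero_mem' := by
    intro k
    rw [C0.co_zero, map_zero]
  smul_mem' := by
    intro c x hx k
    rw [C0.co_smul, map_smul, hx k, smul_zero]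

theorem isClosed_MM : IsClosed (MM : Set EE) := by
  have h : (MM : Set EE) = ⋂ k, ((pk k).comp (C0.ev k)) ⁻¹' {0} := by
    ext m
    simp only [Set.mem_iInter, Set.mem_preimage, Set.mem_singleton_iff]
    exact Iff.rfl
  rw [h]
  exact isClosed_iInter (fun k => isClosed_singleton.preimage ((pk k).comp (C0.ev k)).continuous)

instance instClosedMM : IsClosed (MM : Set EE) := isClosed_MM

/-- The space. -/
abbrev XX := EE ⧸ MM

noncomputable instance : NormedAddCommGroup XX := Submodule.Quotient.normedAddCommGroup MM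

noncomputable instance : NormedSpace ℝ XX := Submodule.Quotient.normedSpace MM ℝ

instance : CompleteSpace XX := Submodule.Quotient.completeSpace MM

/-- The quotient map. -/
noncomputable def QX : EE →L[ℝ] XX :=
  LinearMap.mkContinuous MM.mkQ 1 (fun m => by
    rw [one_mul]
    exact Submodule.Quotient.norm_mk_le MM m)

theorem QX_apply (m : EE) : QX m = Submodule.Quotient.mk m := rfl

theorem MM_le_ker (k : ℕ) : MM ≤ LinearMap.ker ((pk k).comp (C0.ev k)).toLinearMap :=
  fun _ hm => LinearMap.mem_ker.2 (hm k)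

/-- The coordinate maps. -/
noncomputable def yX (k : ℕ) : XX →L[ℝ] Linf Sq :=
  LinearMap.mkContinuous (MM.liftQ ((pk k).comp (C0.ev k)).toLinearMap (MM_le_ker k)) 2 (by
    intro x
    apply le_of_forall_pos_le_add
    intro ε hε
    obtain ⟨m, hm, hmn⟩ := Submodule.Quotient.norm_mk_lt x (half_pos hε)
    rw [← hm]
    change ‖pk k (C0.co m k)‖ ≤ _
    calc ‖pk k (C0.co m k)‖ ≤ 2 * ‖C0.co m k‖ := norm_pk_le k _
      _ ≤ 2 * ‖m‖ := mul_le_mul_of_nonneg_left (C0.norm_co_le m k) zero_le_two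
      _ ≤ 2 * (‖x‖ + ε / 2) := mul_le_mul_of_nonneg_left hmn.le zero_le_two
      _ = 2 * ‖(Submodule.Quotient.mk m : XX)‖ + ε := by
          rw [hm]
          ring)

/-- The data. -/
noncomputable def dataX : Data XX where
  Q := QX
  norm_Q := fun m => Submodule.Quotient.norm_mk_le MM m
  lift := by
    intro x hx
    obtain ⟨m, hm, hmn⟩ := Submodule.Quotient.norm_mk_lt x one_pos
    exact ⟨m, hm, by linarith⟩
  y := yX
  y_Q := fun k m => rfl
  Q_eq_zero := fun m hm => (Submodule.Quotient.mk_eq_zero MM).2 hm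

end Pool.Agent.R268.Mac

namespace Pool.Agent.R268.Mac

theorem exists_data : ∃ (X : Type) (_ : NormedAddCommGroup X) (_ : NormedSpace ℝ X)
    (_ : CompleteSpace X), Nonempty (Data X) :=
  ⟨XX, inferInstance, inferInstance, inferInstance, ⟨dataX⟩⟩

end Pool.Agent.R268.Mac
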