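import Pool.Agent.R268.Mac.Space

/-!
# Weakly compact sets have uniformly small tails (up to an error)
-/

open Set Filter Topology
open scoped ENNReal

namespace Pool.Agent.R268.Mac

/-- Tail sums. -/
noncomputable def RR (f : ℕ → ℝ) (n : ℕ) : ℝ := ∑' i, f (i + n)

theorem RR_split {f : ℕ → ℝ} (hf : Summable f) {n n' : ℕ} (h : n ≤ n') :
    RR f n = ∑ i ∈ Finset.Ico n n', f i + RR f n' := by
  unfold RR
  have h1 := hf.sum_add_tsum_nat_add n
  have h2 := hf.sum_add_tsum_nat_add n'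
  have h3 := Finset.sum_range_add_sum_Ico f h
  linarith

theorem RR_zero (f : ℕ → ℝ) : RR f 0 = ∑' i, f i := by
  unfold RR
  simp

theorem tendsto_RR (f : ℕ → ℝ) : Tendsto (RR f) atTop (𝓝 0) := tendsto_sum_nat_add f

/-- Tail of the absolute values. -/
noncomputable def tl (v : ℕ → ℝ) (n : ℕ) : ℝ := RR (fun i => |v i|) n

theorem tl_nonneg (v : ℕ → ℝ) (n : ℕ) : 0 ≤ tl v n := tsum_nonneg (fun _ => abs_nonneg _)

theorem tl_anti {v : ℕ → ℝ} (hv : Summable (fun i => |v i|)) {n n' : ℕ} (h : n ≤ n') :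
    tl v n' ≤ tl v n := by
  unfold tl
  rw [RR_split hv h]
  have : 0 ≤ ∑ i ∈ Finset.Ico n n', |v i| := Finset.sum_nonneg (fun _ _ => abs_nonneg _)
  linarith

/-- Signed tail sums. -/
noncomputable def SS (θ : Sq) (v : ℕ → ℝ) (n : ℕ) : ℝ := RR (fun i => sg (θ i) * v i) n

theorem abs_SS_le (θ : Sq) {v : ℕ → ℝ} (hv : Summable (fun i => |v i|)) (n : ℕ) :
    |SS θ v n| ≤ tl v n := by
  unfold SS tl RR
  exact abs_tsum_sg_le (fun i => θ (i + n)) ((summable_nat_add_iff n).2 hv)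

theorem SS_sub (θ : Sq) {u v : ℕ → ℝ} (hu : Summable (fun i => |u i|))
    (hv : Summable (fun i => |v i|)) (n : ℕ) :
    SS θ (fun i => u i - v i) n = SS θ u n - SS θ v n := by
  unfold SS RR
  rw [← Summable.tsum_sub]
  · simp only [mul_sub]
  · exact summable_sg (fun i => θ (i + n)) ((summable_nat_add_iff n).2 hu)
  · exact summable_sg (fun i => θ (i + n)) ((summable_nat_add_iff n).2 hv)

/-- Flip the signs from `n` on. -/
def flip (θ : Sq) (n : ℕ) : Sq := fun i => if i < n then θ i else !(θ i)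

theorem J_flip (t : l1) (θ : Sq) (n : ℕ) : J t θ - J t (flip θ n) = 2 * SS θ t n := by
  rw [J_apply, J_apply, ← Summable.tsum_sub (summable_sg θ (l1_summable t))
    (summable_sg (flip θ n) (l1_summable t))]
  have h1 : Summable (fun i => sg (θ i) * t i - sg (flip θ n i) * t i) :=
    (summable_sg θ (l1_summable t)).sub (summable_sg (flip θ n) (l1_summable t))
  rw [← h1.sum_add_tsum_nat_add n]
  have h2 : ∑ i ∈ Finset.range n, (sg (θ i) * t i - sg (flip θ n i) * t i) = 0 := by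
    apply Finset.sum_eq_zero
    intro i hi
    unfold flip
    rw [if_pos (Finset.mem_range.1 hi), sub_self]
  rw [h2, zero_add]
  unfold SS RR
  rw [← tsum_mul_left]
  apply tsum_congr
  intro i
  unfold flip
  rw [if_neg (by omega), sg_not]
  ring

/-- Evaluation functionals. -/
noncomputable def evL (θ : Sq) : Linf Sq →L[ℝ] ℝ :=
  LinearMap.mkContinuous
    { toFun := fun y => y θ
      map_add' := fun _ _ => rfl
      map_smul' := fun _ _ => rfl } 1 (fun y => by
        rw [one_mul]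
        exact abs_le_linf_norm y θ)

theorem evL_apply (θ : Sq) (y : Linf Sq) : evL θ y = y θ := rfl

variable {X : Type} [NormedAddCommGroup X] [NormedSpace ℝ X] (D : Data X)

theorem phi_eq (k : ℕ) (m : EE) (θ : Sq) (n : ℕ) :
    (evL θ - evL (flip θ n)) (D.y k (D.Q m)) = 2 * SS θ (C0.co m k).1 n +
      ((k : ℝ) + 1)⁻¹ * ((C0.co m k).2 θ - (C0.co m k).2 (flip θ n)) := by
  rw [D.y_Q, ContinuousLinearMap.sub_apply, evL_apply, evL_apply, ← J_flip]
  change (J (C0.co m k).1 θ + ((k : ℝ) + 1)⁻¹ * (C0.co m k).2 θ) -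
    (J (C0.co m k).1 (flip θ n) + ((k : ℝ) + 1)⁻¹ * (C0.co m k).2 (flip θ n)) = _
  ring

/-- Uniformly small tails on weakly compact sets. -/
theorem tails (k : ℕ) {L : Set X} (hLc : WCompact L) (m : X → EE)
    (hm1 : ∀ x ∈ L, D.Q (m x) = x) (hm2 : ∀ x ∈ L, ‖m x‖ ≤ 2) :
    ∃ n, ∀ x ∈ L, tl (C0.co (m x) k).1 n ≤ 5 / ((k : ℝ) + 1) := by
  by_contra hcon
  push Not at hcon
  have hK : 0 < (k : ℝ) + 1 := by positivity
  choose x hxL hx using hcon
  let u : ℕ → ℕ → ℝ := fun p => ((C0.co (m (x p)) k).1 : l1)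
  have hus : ∀ p, Summable (fun i => |u p i|) := fun p => l1_summable _
  have hu2 : ∀ p, ∑' i, |u p i| ≤ 2 := by
    intro p
    rw [← l1_norm]
    calc ‖(C0.co (m (x p)) k).1‖ ≤ ‖C0.co (m (x p)) k‖ := norm_fst_le _
      _ ≤ ‖m (x p)‖ := C0.norm_co_le _ _
      _ ≤ 2 := hm2 _ (hxL p)
  have hui : ∀ p i, |u p i| ≤ 2 := fun p i =>
    ((hus p).le_tsum i (fun _ _ => abs_nonneg _)).trans (hu2 p)
  -- coordinatewise limit
  have ht : ∀ i, ∃ c, Tendsto (fun p => u p i) (hyperfilter ℕ : Filter ℕ) (𝓝 c) := by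
    intro i
    obtain ⟨c, -, hc⟩ := exists_ultra_lim (hyperfilter ℕ) (fun p => u p i) Set.univ univ_mem 2
      (fun p _ => hui p i)
    exact ⟨c, hc⟩
  choose t ht using ht
  have hts : Summable (fun i => |t i|) := by
    apply summable_of_sum_le (fun _ => abs_nonneg _) (c := 2)
    intro F
    have h1 : Tendsto (fun p => ∑ i ∈ F, |u p i|) (hyperfilter ℕ : Filter ℕ)
        (𝓝 (∑ i ∈ F, |t i|)) := tendsto_finsetSum _ (fun i _ => (ht i).abs)
    apply le_of_tendsto' h1
    intro p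
    exact ((hus p).sum_le_tsum F (fun _ _ => abs_nonneg _)).trans (hu2 p)
  let d : ℝ := 1 / (8 * ((k : ℝ) + 1))
  have hd : 0 < d := by positivity
  let η : ℝ := 5 / ((k : ℝ) + 1)
  obtain ⟨N0, hN0⟩ := ((tendsto_RR (fun i => |t i|)).eventually (gt_mem_nhds hd)).exists
  have hstep : ∀ N : ℕ, ∃ p N' : ℕ, ∑ i ∈ Finset.range N, |u p i - t i| < d ∧ η < tl (u p) N ∧
      N < N' ∧ tl (u p) N' < d := by
    intro N
    have h1 : Tendsto (fun p => ∑ i ∈ Finset.range N, |u p i - t i|)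
        (hyperfilter ℕ : Filter ℕ) (𝓝 (∑ i ∈ Finset.range N, |t i - t i|)) :=
      tendsto_finsetSum _ (fun i _ => ((ht i).sub_const _).abs)
    have h2 : ∑ i ∈ Finset.range N, |t i - t i| = 0 := by simp
    rw [h2] at h1
    have h3 : ∀ᶠ p in (hyperfilter ℕ : Filter ℕ), N ≤ p := by
      have : (hyperfilter ℕ : Filter ℕ) ≤ atTop := by
        rw [← Nat.cofinite_eq_atTop]
        exact hyperfilter_le_cofinite
      exact this (eventually_ge_atTop N)
    obtain ⟨p, hp1, hp2⟩ := ((h1.eventually (gt_mem_nhds hd)).and h3).exists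
    obtain ⟨N', hN'1, hN'2⟩ := (((tendsto_RR (fun i => |u p i|)).eventually
      (gt_mem_nhds hd)).and (eventually_gt_atTop N)).exists
    exact ⟨p, N', hp1, lt_of_lt_of_le (hx p) (tl_anti (hus p) hp2), hN'2, hN'1⟩
  choose p N' hp1 hp2 hN' hN'd using hstep
  let Ns : ℕ → ℕ := fun j => N'^[j] N0
  have hNs : ∀ j, Ns (j + 1) = N' (Ns j) := fun j => Function.iterate_succ_apply' N' j N0
  have hmono : StrictMono Ns := strictMono_nat_of_lt_succ (fun j => by rw [hNs]; exact hN' _)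
  let w : ℕ → ℕ → ℝ := fun s => u (p (Ns s))
  -- signs
  classical
  let θ : Sq := fun i => decide (∃ s, Ns s ≤ i ∧ i < Ns (s + 1) ∧ 0 ≤ w s i)
  have hθ : ∀ s i, Ns s ≤ i → i < Ns (s + 1) → sg (θ i) * w s i = |w s i| := by
    intro s i h1 h2
    by_cases h0 : 0 ≤ w s i
    · have : θ i = true := by
        simp only [θ, decide_eq_true_eq]
        exact ⟨s, h1, h2, h0⟩
      rw [this, sg_true, one_mul, abs_of_nonneg h0]
    · have : θ i = false := by
        simp only [θ, decide_eq_false_iff_not]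
        rintro ⟨s', h1', h2', h0'⟩
        have hs : s' = s := by
          by_contra hne
          rcases lt_or_gt_of_ne hne with h | h
          · exact absurd (lt_of_lt_of_le h2' (hmono.monotone (Nat.succ_le_of_lt h))) (by omega)
          · exact absurd (lt_of_lt_of_le h2 (hmono.monotone (Nat.succ_le_of_lt h))) (by omega)
        rw [hs] at h0'
        exact h0 h0'
      rw [this, sg_false, abs_of_neg (not_le.1 h0)]
      ring
  have htN : ∀ s, tl t (Ns s) < d := by
    intro s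
    refine lt_of_le_of_lt (tl_anti hts ?_) hN0
    exact hmono.monotone (Nat.zero_le s)
  -- lower bound
  have hlow : ∀ j s, j ≤ s → η - 4 * d + SS θ t (Ns j) ≤ SS θ (w s) (Ns j) := by
    intro j s hjs
    have hws : Summable (fun i => |w s i|) := hus _
    have hvs : Summable (fun i => |w s i - t i|) := by
      apply Summable.of_nonneg_of_le (fun _ => abs_nonneg _) (fun i => abs_sub _ _)
      exact hws.add hts
    have h1 : SS θ (fun i => w s i - t i) (Ns j) = SS θ (w s) (Ns j) - SS θ t (Ns j) :=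
      SS_sub θ hws hts _
    have h2 : SS θ (fun i => w s i - t i) (Ns j) =
        ∑ i ∈ Finset.Ico (Ns j) (Ns s), sg (θ i) * (w s i - t i)
          + SS θ (fun i => w s i - t i) (Ns s) :=
      RR_split (summable_sg θ hvs) (hmono.monotone hjs)
    have h3 : |∑ i ∈ Finset.Ico (Ns j) (Ns s), sg (θ i) * (w s i - t i)| ≤ d := by
      calc |∑ i ∈ Finset.Ico (Ns j) (Ns s), sg (θ i) * (w s i - t i)|
          ≤ ∑ i ∈ Finset.Ico (Ns j) (Ns s), |sg (θ i) * (w s i - t i)| :=
            Finset.abs_sum_le_sum_abs _ _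
        _ = ∑ i ∈ Finset.Ico (Ns j) (Ns s), |w s i - t i| := by
            apply Finset.sum_congr rfl
            intro i _
            rw [abs_mul, abs_sg, one_mul]
        _ ≤ ∑ i ∈ Finset.range (Ns s), |w s i - t i| := by
            apply Finset.sum_le_sum_of_subset_of_nonneg
            · intro i hi
              rw [Finset.mem_range]
              exact (Finset.mem_Ico.1 hi).2
            · intro i _ _
              exact abs_nonneg _
        _ ≤ d := (hp1 (Ns s)).le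
    have h4 : SS θ (fun i => w s i - t i) (Ns s) = SS θ (w s) (Ns s) - SS θ t (Ns s) :=
      SS_sub θ hws hts _
    have h5 := abs_SS_le θ hts (Ns s)
    have h6 := htN s
    have h7 : SS θ (w s) (Ns s) = ∑ i ∈ Finset.Ico (Ns s) (Ns (s + 1)), sg (θ i) * w s i
        + SS θ (w s) (Ns (s + 1)) := RR_split (summable_sg θ hws) (hmono (Nat.lt_succ_self s)).le
    have h8 : ∑ i ∈ Finset.Ico (Ns s) (Ns (s + 1)), sg (θ i) * w s i
        = ∑ i ∈ Finset.Ico (Ns s) (Ns (s + 1)), |w s i| := by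
      apply Finset.sum_congr rfl
      intro i hi
      exact hθ s i (Finset.mem_Ico.1 hi).1 (Finset.mem_Ico.1 hi).2
    have h9 : tl (w s) (Ns s) = ∑ i ∈ Finset.Ico (Ns s) (Ns (s + 1)), |w s i|
        + tl (w s) (Ns (s + 1)) := RR_split hws (hmono (Nat.lt_succ_self s)).le
    have h10 := abs_SS_le θ hws (Ns (s + 1))
    have h11 : tl (w s) (Ns (s + 1)) < d := by
      rw [hNs]
      exact hN'd _
    have h12 : η < tl (w s) (Ns s) := hp2 _
    have h13 := abs_le.1 h3
    have h14 := abs_le.1 h5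
    have h15 := abs_le.1 h10
    linarith [h13.1, h13.2, h14.1, h14.2, h15.1, h15.2]
  -- weak cluster point
  have hcl : ∃ x' ∈ L, Tendsto (fun s => toWeakSpace ℝ X (x (p (Ns s))))
      (hyperfilter ℕ : Filter ℕ) (𝓝 (toWeakSpace ℝ X x')) := by
    have h1 : ((hyperfilter ℕ).map (fun s => toWeakSpace ℝ X (x (p (Ns s)))) : Filter _)
        ≤ 𝓟 (toWeakSpace ℝ X '' L) := by
      rw [le_principal_iff]
      change (fun s => toWeakSpace ℝ X (x (p (Ns s)))) ⁻¹' (toWeakSpace ℝ X '' L) ∈ hyperfilter ℕ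
      have : (fun s => toWeakSpace ℝ X (x (p (Ns s)))) ⁻¹' (toWeakSpace ℝ X '' L) = Set.univ := by
        rw [Set.eq_univ_iff_forall]
        intro s
        exact ⟨x (p (Ns s)), hxL _, rfl⟩
      rw [this]
      exact univ_mem
    obtain ⟨_, ⟨x', hx', rfl⟩, hle⟩ := IsCompact.ultrafilter_le_nhds hLc _ h1
    exact ⟨x', hx', hle⟩
  obtain ⟨x', hx'L, hx'⟩ := hcl
  rw [tendsto_weak_iff] at hx'
  have hK' : 0 < ((k : ℝ) + 1)⁻¹ := inv_pos.2 hK
  have hz : ∀ y ∈ L, ∀ θ' : Sq, |((C0.co (m y) k).2 : Linf Sq) θ'| ≤ 2 := by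
    intro y hy θ'
    calc |((C0.co (m y) k).2 : Linf Sq) θ'| ≤ ‖(C0.co (m y) k).2‖ := abs_le_linf_norm _ _
      _ ≤ ‖C0.co (m y) k‖ := norm_snd_le _
      _ ≤ ‖m y‖ := C0.norm_co_le _ _
      _ ≤ 2 := hm2 y hy
  let t' : ℕ → ℝ := ((C0.co (m x') k).1 : l1)
  have ht's : Summable (fun i => |t' i|) := l1_summable _
  have hkey : ∀ j, 2 * η - 8 * d - 8 * ((k : ℝ) + 1)⁻¹
      ≤ 2 * SS θ t' (Ns j) - 2 * SS θ t (Ns j) := by
    intro j
    have h1 := hx' ((evL θ - evL (flip θ (Ns j))).comp (D.y k))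
    have h2 : 2 * (η - 4 * d + SS θ t (Ns j)) - 4 * ((k : ℝ) + 1)⁻¹ ≤
        ((evL θ - evL (flip θ (Ns j))).comp (D.y k)) x' := by
      apply ge_of_tendsto h1
      have h3 : ∀ᶠ s in (hyperfilter ℕ : Filter ℕ), j ≤ s := by
        have : (hyperfilter ℕ : Filter ℕ) ≤ atTop := by
          rw [← Nat.cofinite_eq_atTop]
          exact hyperfilter_le_cofinite
        exact this (eventually_ge_atTop j)
      filter_upwards [h3] with s hs
      have h4 := phi_eq D k (m (x (p (Ns s)))) θ (Ns j)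
      rw [hm1 _ (hxL _)] at h4
      rw [ContinuousLinearMap.comp_apply, h4]
      have h5 := hlow j s hs
      have h6 := abs_le.1 (hz _ (hxL (p (Ns s))) θ)
      have h7 := abs_le.1 (hz _ (hxL (p (Ns s))) (flip θ (Ns j)))
      have h8 : -4 * ((k : ℝ) + 1)⁻¹ ≤ ((k : ℝ) + 1)⁻¹ *
          (((C0.co (m (x (p (Ns s)))) k).2 : Linf Sq) θ
            - ((C0.co (m (x (p (Ns s)))) k).2 : Linf Sq) (flip θ (Ns j))) := by
        rw [mul_comm]
        apply mul_le_mul_of_nonneg_left _ hK'.le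
        linarith [h6.1, h7.2]
      have h9 : SS θ (w s) (Ns j) = SS θ (C0.co (m (x (p (Ns s)))) k).1 (Ns j) := rfl
      linarith
    have h3 := phi_eq D k (m x') θ (Ns j)
    rw [hm1 _ hx'L] at h3
    rw [ContinuousLinearMap.comp_apply, h3] at h2
    have h6 := abs_le.1 (hz _ hx'L θ)
    have h7 := abs_le.1 (hz _ hx'L (flip θ (Ns j)))
    have h8 : ((k : ℝ) + 1)⁻¹ * (((C0.co (m x') k).2 : Linf Sq) θ
            - ((C0.co (m x') k).2 : Linf Sq) (flip θ (Ns j))) ≤ 4 * ((k : ℝ) + 1)⁻¹ := by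
      rw [mul_comm]
      apply mul_le_mul_of_nonneg_right _ hK'.le
      linarith [h6.2, h7.1]
    have h9 : SS θ t' (Ns j) = SS θ (C0.co (m x') k).1 (Ns j) := rfl
    linarith
  have hlim : Tendsto (fun j => 2 * tl t' (Ns j) + 2 * tl t (Ns j)) atTop (𝓝 (2 * 0 + 2 * 0)) := by
    apply Tendsto.add
    · exact ((tendsto_RR (fun i => |t' i|)).comp hmono.tendsto_atTop).const_mul 2
    · exact ((tendsto_RR (fun i => |t i|)).comp hmono.tendsto_atTop).const_mul 2
  have hfin : 2 * η - 8 * d - 8 * ((k : ℝ) + 1)⁻¹ ≤ 2 * 0 + 2 * 0 := by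
    apply ge_of_tendsto' hlim
    intro j
    have h1 := hkey j
    have h2 := abs_le.1 (abs_SS_le θ ht's (Ns j))
    have h3 := abs_le.1 (abs_SS_le θ hts (Ns j))
    linarith [h2.2, h3.1]
  have hcomp : 2 * η - 8 * d - 8 * ((k : ℝ) + 1)⁻¹ = ((k : ℝ) + 1)⁻¹ := by
    simp only [η, d]
    field_simp
    norm_num
  rw [hcomp] at hfin
  linarith

end Pool.Agent.R268.Mac
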