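import Pool.Agent.R268.Mac.Defs

/-!
# General principles: weakly null sequences and weak compactness via ultrafilters
-/

open Set Filter Topology

namespace Pool.Agent.R268.Mac

variable {X Z : Type*} [NormedAddCommGroup X] [NormedSpace ℝ X]
  [NormedAddCommGroup Z] [NormedSpace ℝ Z]

/-- In a regular space a set all of whose ultrafilters converge is relatively compact. -/
theorem isCompact_closure_of_ultra {α : Type*} [TopologicalSpace α] [RegularSpace α] {A : Set α}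
    (h : ∀ U : Ultrafilter α, A ∈ U → ∃ x, (U : Filter α) ≤ 𝓝 x) : IsCompact (closure A) := by
  rw [isCompact_iff_ultrafilter_le_nhds']
  intro V hV
  let F : Filter α :=
    { sets := {s | ∃ G, IsOpen G ∧ G ∈ V ∧ A ∩ G ⊆ s}
      univ_sets := ⟨univ, isOpen_univ, univ_mem, subset_univ _⟩
      sets_of_superset := by
        rintro s t ⟨G, h1, h2, h3⟩ hst
        exact ⟨G, h1, h2, h3.trans hst⟩
      inter_sets := by
        rintro s t ⟨G, h1, h2, h3⟩ ⟨G', h1', h2', h3'⟩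
        refine ⟨G ∩ G', h1.inter h1', inter_mem h2 h2', ?_⟩
        rintro x ⟨hxA, hxG, hxG'⟩
        exact ⟨h3 ⟨hxA, hxG⟩, h3' ⟨hxA, hxG'⟩⟩ }
  have hFmem : ∀ s, s ∈ F ↔ ∃ G, IsOpen G ∧ G ∈ V ∧ A ∩ G ⊆ s := fun s => Iff.rfl
  haveI hF : F.NeBot := by
    rw [Filter.neBot_iff]
    intro hbot
    have h0 : (∅ : Set α) ∈ F := by
      rw [hbot]
      exact Filter.mem_bot
    obtain ⟨G, hG, hGV, hsub⟩ := (hFmem ∅).1 h0
    obtain ⟨x, hx, hxG⟩ := V.nonempty_of_mem (inter_mem hV hGV)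
    obtain ⟨y, hyG, hyA⟩ := mem_closure_iff.1 hx G hG hxG
    exact hsub ⟨hyA, hyG⟩
  have hUF : (Ultrafilter.of F : Filter α) ≤ F := Ultrafilter.of_le F
  have hAU : A ∈ Ultrafilter.of F := hUF ((hFmem A).2 ⟨univ, isOpen_univ, univ_mem, by simp⟩)
  obtain ⟨x, hx⟩ := h _ hAU
  refine ⟨x, mem_closure_iff_ultrafilter.2 ⟨_, hAU, hx⟩, ?_⟩
  rw [(closed_nhds_basis x).ge_iff]
  rintro C ⟨hC, hCc⟩
  by_contra hCV
  have h1 : Cᶜ ∈ V := Ultrafilter.compl_mem_iff_notMem.2 hCV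
  have h2 : A ∩ Cᶜ ∈ Ultrafilter.of F :=
    hUF ((hFmem _).2 ⟨Cᶜ, hCc.isOpen_compl, h1, subset_rfl⟩)
  have h3 : C ∈ Ultrafilter.of F := hx hC
  obtain ⟨y, ⟨-, hy1⟩, hy2⟩ := (Ultrafilter.of F).nonempty_of_mem (inter_mem h2 h3)
  exact hy1 hy2

/-- Weak convergence in `WeakSpace` along a filter. -/
theorem tendsto_weak_iff {ι : Type*} {l : Filter ι} {u : ι → Z} {z : Z} :
    Tendsto (fun i => toWeakSpace ℝ Z (u i)) l (𝓝 (toWeakSpace ℝ Z z)) ↔
      ∀ f : Z →L[ℝ] ℝ, Tendsto (fun i => f (u i)) l (𝓝 (f z)) := by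
  have h1 : (𝓝 (toWeakSpace ℝ Z z)) =
      comap (fun (x : WeakSpace ℝ Z) (f : Z →L[ℝ] ℝ) => f ((toWeakSpace ℝ Z).symm x))
        (𝓝 (fun f => f z)) :=
    nhds_induced _ _
  rw [h1, tendsto_comap_iff, tendsto_pi_nhds]
  exact Iff.rfl

/-- A bounded real function has a limit along an ultrafilter. -/
theorem exists_ultra_lim {α : Type*} (U : Ultrafilter α) (g : α → ℝ) (s : Set α) (hs : s ∈ U)
    (C : ℝ) (hC : ∀ x ∈ s, |g x| ≤ C) : ∃ c, |c| ≤ C ∧ Tendsto g U (𝓝 c) := by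
  have h1 : IsCompact (Set.Icc (-C) C) := isCompact_Icc
  have h2 : (U.map g : Filter ℝ) ≤ 𝓟 (Set.Icc (-C) C) := by
    rw [le_principal_iff]
    change g ⁻¹' (Set.Icc (-C) C) ∈ U
    filter_upwards [hs] with x hx
    exact abs_le.1 (hC x hx)
  obtain ⟨c, hc, hle⟩ := h1.ultrafilter_le_nhds _ h2
  exact ⟨c, abs_le.2 hc, hle⟩

/-- Criterion for weak compactness of an operator. -/
theorem wcompactOp_of_ultra [CompleteSpace Z] (T : X →L[ℝ] Z)
    (h : ∀ U : Ultrafilter X, Metric.closedBall 0 1 ∈ U → ∀ ε : ℝ, 0 < ε → ∃ z : Z,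
      ∀ f : Z →L[ℝ] ℝ, ‖f‖ ≤ 1 → ∀ c, Tendsto (fun x => f (T x)) U (𝓝 c) → |c - f z| ≤ ε) :
    WCompactOp T := by
  unfold WCompactOp
  apply isCompact_closure_of_ultra
  intro V hV
  -- lift the ultrafilter to `X`
  have hV' : (fun x : X => toWeakSpace ℝ Z (T x)) '' Metric.closedBall 0 1 ∈ V := by
    rw [← Set.image_image (toWeakSpace ℝ Z) T]
    exact hV
  obtain ⟨U, hUb, hUV⟩ : ∃ U : Ultrafilter X, Metric.closedBall 0 1 ∈ U ∧
      U.map (fun x : X => toWeakSpace ℝ Z (T x)) = V := by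
    have h1 : (Set.InjOn id (Set.univ : Set X)) := fun _ _ _ _ h => h
    let F : Filter X := comap (fun x : X => toWeakSpace ℝ Z (T x)) V ⊓
      𝓟 (Metric.closedBall 0 1)
    haveI : F.NeBot := by
      rw [Filter.neBot_iff]
      intro hbot
      have h0 : (∅ : Set X) ∈ F := by
        rw [hbot]
        exact Filter.mem_bot
      rw [Filter.mem_inf_principal, Filter.mem_comap] at h0
      obtain ⟨t, ht, hts⟩ := h0
      obtain ⟨w, hw1, x, hx, rfl⟩ := V.nonempty_of_mem (inter_mem ht hV')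
      exact hts hw1 hx
    refine ⟨Ultrafilter.of F, ?_, ?_⟩
    · exact Ultrafilter.of_le F (mem_inf_of_right (mem_principal_self _))
    · apply Ultrafilter.eq_of_le
      have h2 : ((Ultrafilter.of F : Ultrafilter X) : Filter X) ≤
          comap (fun x : X => toWeakSpace ℝ Z (T x)) V := (Ultrafilter.of_le F).trans inf_le_left
      exact (Filter.map_mono h2).trans Filter.map_comap_le
  -- bounded functionals have limits
  have hlim : ∀ f : Z →L[ℝ] ℝ, ∃ c, Tendsto (fun x => f (T x)) U (𝓝 c) := by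
    intro f
    obtain ⟨c, -, hc⟩ := exists_ultra_lim U (fun x => f (T x)) (Metric.closedBall 0 1) hUb
      (‖f‖ * ‖T‖) (by
        intro x hx
        rw [mem_closedBall_zero_iff] at hx
        calc |f (T x)| ≤ ‖f‖ * ‖T x‖ := f.le_opNorm _
          _ ≤ ‖f‖ * (‖T‖ * 1) := by
              apply mul_le_mul_of_nonneg_left _ (norm_nonneg _)
              exact (T.le_opNorm x).trans (mul_le_mul_of_nonneg_left hx T.opNorm_nonneg)
          _ = ‖f‖ * ‖T‖ := by rw [mul_one])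
    exact ⟨c, hc⟩
  choose c hc using hlim
  have hz : ∀ n : ℕ, ∃ z : Z, ∀ f : Z →L[ℝ] ℝ, ‖f‖ ≤ 1 → |c f - f z| ≤ 1 / ((n : ℝ) + 1) := by
    intro n
    obtain ⟨z, hz⟩ := h U hUb (1 / ((n : ℝ) + 1)) (by positivity)
    exact ⟨z, fun f hf => hz f hf (c f) (hc f)⟩
  choose z hz using hz
  have hdist : ∀ m n : ℕ, ‖z m - z n‖ ≤ 1 / ((m : ℝ) + 1) + 1 / ((n : ℝ) + 1) := by
    intro m n
    obtain ⟨f, hf1, hf2⟩ := exists_dual_vector'' ℝ (z m - z n)
    have h1 := hz m f hf1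
    have h2 := hz n f hf1
    have h3 : f (z m - z n) = ‖z m - z n‖ := by simpa using hf2
    rw [← h3, map_sub]
    have h4 := abs_le.1 h1
    have h5 := abs_le.1 h2
    linarith [h4.1, h4.2, h5.1, h5.2]
  have hcau : CauchySeq z := by
    rw [Metric.cauchySeq_iff']
    intro ε hε
    obtain ⟨N, hN⟩ := exists_nat_one_div_lt (half_pos hε)
    refine ⟨N, fun n hn => ?_⟩
    rw [dist_eq_norm]
    have h1 : 1 / ((n : ℝ) + 1) ≤ 1 / ((N : ℝ) + 1) := by
      apply one_div_le_one_div_of_le (by positivity)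
      have : (N : ℝ) ≤ n := by exact_mod_cast hn
      linarith
    linarith [hdist n N]
  obtain ⟨z0, hz0⟩ := cauchySeq_tendsto_of_complete hcau
  have hfz : ∀ f : Z →L[ℝ] ℝ, ‖f‖ ≤ 1 → c f = f z0 := by
    intro f hf
    have h1 : Tendsto (fun n => f (z n)) atTop (𝓝 (f z0)) := (f.continuous.tendsto _).comp hz0
    have h2 : Tendsto (fun n => f (z n)) atTop (𝓝 (c f)) := by
      rw [tendsto_iff_norm_sub_tendsto_zero]
      apply squeeze_zero (fun _ => norm_nonneg _) _ tendsto_one_div_add_atTop_nhds_zero_nat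
      intro n
      rw [Real.norm_eq_abs, abs_sub_comm]
      exact hz n f hf
    exact tendsto_nhds_unique h2 h1
  have hall : ∀ f : Z →L[ℝ] ℝ, Tendsto (fun x => f (T x)) U (𝓝 (f z0)) := by
    intro f
    have hpos : 0 < ‖f‖ + 1 := by positivity
    have h1 : ‖(‖f‖ + 1)⁻¹ • f‖ ≤ 1 := by
      rw [norm_smul, norm_inv, Real.norm_of_nonneg hpos.le, inv_mul_le_one₀ hpos]
      linarith
    have h2 := hc ((‖f‖ + 1)⁻¹ • f)
    rw [hfz _ h1] at h2
    have h3 := h2.const_mul (‖f‖ + 1)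
    have h4 : ∀ w : Z, (‖f‖ + 1) * ((‖f‖ + 1)⁻¹ • f) w = f w := by
      intro w
      rw [ContinuousLinearMap.smul_apply, smul_eq_mul, mul_inv_cancel_left₀ hpos.ne']
    simpa only [h4] using h3
  refine ⟨toWeakSpace ℝ Z z0, ?_⟩
  rw [← hUV]
  exact tendsto_weak_iff.2 hall

/-- A weakly unconditionally bounded sequence is weakly null. -/
theorem wconv_zero_of_signs {b : ℕ → X} {C : ℝ}
    (h : ∀ (n : ℕ) (ε : ℕ → ℝ), (∀ i, |ε i| = 1) → ‖∑ i ∈ Finset.range n, ε i • b i‖ ≤ C) :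
    WConv b 0 := by
  intro f
  have h1 : ∀ n, ∑ i ∈ Finset.range n, |f (b i)| ≤ ‖f‖ * C := by
    intro n
    let ε : ℕ → ℝ := fun i => if 0 ≤ f (b i) then 1 else -1
    have hε : ∀ i, |ε i| = 1 := by
      intro i
      simp only [ε]
      split_ifs <;> simp
    have h2 : ∑ i ∈ Finset.range n, |f (b i)| = f (∑ i ∈ Finset.range n, ε i • b i) := by
      rw [map_sum]
      apply Finset.sum_congr rfl
      intro i _
      rw [map_smul, smul_eq_mul]
      simp only [ε]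
      split_ifs with h3
      · rw [abs_of_nonneg h3, one_mul]
      · rw [abs_of_neg (not_le.1 h3)]
        ring
    rw [h2]
    calc f (∑ i ∈ Finset.range n, ε i • b i) ≤ |f (∑ i ∈ Finset.range n, ε i • b i)| :=
          le_abs_self _
      _ ≤ ‖f‖ * ‖∑ i ∈ Finset.range n, ε i • b i‖ := f.le_opNorm _
      _ ≤ ‖f‖ * C := mul_le_mul_of_nonneg_left (h n ε hε) (norm_nonneg _)
  have h2 : Summable (fun i => |f (b i)|) :=
    summable_of_sum_range_le (fun _ => abs_nonneg _) h1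
  rw [map_zero]
  exact (tendsto_zero_iff_abs_tendsto_zero _).2 h2.tendsto_atTop_zero

theorem WConv.comp {b : ℕ → X} {a : X} (h : WConv b a) (T : X →L[ℝ] Z) :
    WConv (fun n => T (b n)) (T a) := fun f => h (f.comp T)

theorem ComplCont.comp {W : Type*} [NormedAddCommGroup W] [NormedSpace ℝ W] {T : X →L[ℝ] Z}
    (hT : ComplCont T) (S : W →L[ℝ] X) : ComplCont (T.comp S) :=
  fun x a hx => hT (fun n => S (x n)) (S a) (hx.comp S)

end Pool.Agent.R268.Mac
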